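import Mathlib
import Pool.Agent.Helper126.Lam.Forc

/-!
# The proxy principle at `ω₁` in a forcing extension

Sentences of the forcing language are sets of conditions (the conditions which force them), and a
subset of `ω₁` of the extension is named by a map sending `x` to the set of the conditions attached
to `x`; see `Pool.Agent.Helper126.Lam.Forc`. The type `K1` is the set of the countable ordinals.
-/

namespace Pool.Agent.W876.Prox.Defs

open Cardinal Pool.Agent.Helper126.Lam.Forc

universe u

variable {P : Type u} [Preorder P]

/-- The ordinal `η` is a limit point of the set named by `C`: `η ≠ 0` and `sup (C ∩ η) = η`. -/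
def IsLimitPoint (C : K1 → Set P) (η : K1) : Set P :=
  fand (fground (¬ IsMin η))
    (fall fun ζ => fall fun _ : ζ < η => fex fun x =>
      fand (fground (ζ < x ∧ x < η)) (meets (C x)))

/-- `η ∈ acc (C)` where `C` names a set with supremum `α`. -/
def InAcc (C : K1 → Set P) (α η : K1) : Set P := fand (fground (η < α)) (IsLimitPoint C η)

/-- `x ∈ nacc (C)` where `C` names a set with supremum `α`. -/
def InNacc (C : K1 → Set P) (α x : K1) : Set P := fand (meets (C x)) (fnot (InAcc C α x))

/-- The set named by `C` is a club subset of `α` with supremum `α`; that is `C ∈ 𝒦 (ω₁)` and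
`α_C = α`. -/
def IsClubIn (C : K1 → Set P) (α : K1) : Set P :=
  fand (fall fun x => fimp (meets (C x)) (fground (x < α)))
    (fand (fall fun ζ => fall fun _ : ζ < α => fex fun x =>
        fand (fground (ζ < x ∧ x < α)) (meets (C x)))
      (fall fun η => fimp (InAcc C α η) (meets (C η))))

/-- The sequence named by `C` is an `(ω₁, 2, ^ΩR)`-sequence. The family `𝒞_α` has exactly one
member, which is named by `C α`. The sentence `Rel β α D C` says that `D R C` holds, where
`β = α_D` and `α = α_C`; and `D ^ΩR C` means that `D R C` and `α_D ∉ Ω`. -/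
def IsSeq (Rel : K1 → K1 → (K1 → Set P) → (K1 → Set P) → Set P) (Ω : Set K1)
    (C : K1 → K1 → Set P) : Set P :=
  fall fun α => fall fun _ : Order.IsSuccLimit α =>
    fand (IsClubIn (C α) α)
      (fall fun β => fimp (InAcc (C α) α β)
        (fand (Rel β α (C β) (C α)) (fground (β ∉ Ω))))

/-- The set named by `B` is cofinal in `ω₁`. -/
def IsCofinalSet (B : K1 → Set P) : Set P :=
  fall fun ζ => fex fun x => fand (fground (ζ < x)) (meets (B x))

/-- The set named by `E` is a club subset of `ω₁`. -/
def IsClubSet (E : K1 → Set P) : Set P :=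
  fand (IsCofinalSet E) (fall fun η => fimp (IsLimitPoint E η) (meets (E η)))

/-- The set of the limit ordinals `α < ω₁` which satisfy `φ α` is stationary. -/
def IsStationarySet (φ : K1 → Set P) : Set P :=
  fall fun E : K1 → Set P => fimp (IsClubSet E)
    (fex fun α => fand (fground (Order.IsSuccLimit α)) (fand (meets (E α)) (φ α)))

/-- The order type of the set of the predecessors of `i`. -/
noncomputable def idx (i : K1) : Ordinal.{0} := Ordinal.typein (α := K1) (· < ·) i

/-- `sup (nacc (C) ∩ B) = α` where `C` names a set with supremum `α`. -/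
def Hits (C : K1 → Set P) (α : K1) (B : K1 → Set P) : Set P :=
  fall fun ζ => fall fun _ : ζ < α => fex fun x =>
    fand (fground (ζ < x ∧ x < α)) (fand (InNacc C α x) (meets (B x)))

/-- `C` witnesses the hitting clause with parameter `θ`: for every sequence `⟨B i | i < θ⟩` of
cofinal subsets of `ω₁` the set of all `α` with `sup (nacc (C α) ∩ B i) = α` for all
`i < min {α, θ}` is stationary. -/
def HitsAll (θ : Ordinal.{0}) (C : K1 → K1 → Set P) : Set P :=
  fall fun B : K1 → K1 → Set P =>
    fimp (fall fun i => fall fun _ : idx i < θ => IsCofinalSet (B i))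
      (IsStationarySet fun α => fall fun i => fall fun _ : i < α => fall fun _ : idx i < θ =>
        Hits (C α) α (B i))

/-- The principle `P⁻ (ω₁, 2, ^ΩR, θ, {ω₁}, 2)`. -/
def Proxy (Rel : K1 → K1 → (K1 → Set P) → (K1 → Set P) → Set P) (Ω : Set K1)
    (θ : Ordinal.{0}) : Set P :=
  fex fun C : K1 → K1 → Set P => fand (IsSeq Rel Ω C) (HitsAll θ C)

end Pool.Agent.W876.Prox.Defs
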