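import Mathlib
import Pool.Agent.Helper126.Lam.Forc

/-!
# A finite support iteration adding a ladder system and, for every named ladder system,
countably many uncountable sets such that every member of the named system has finite
intersection with one of them
-/

namespace Pool.Agent.W876.Prox.Poset

open Cardinal Pool.Agent.Helper126.Lam.Forc

set_option linter.unusedSectionVars false

/-- the places of a coordinate: `co α n` codes the `n`-th element of the generic ladder at `α`,
`bit m x` tells whether `x` belongs to the `m`-th generic set, and `pr α` is the promise at `α` -/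
inductive Tag : Type
  | co : K1 → ℕ → Tag
  | bit : ℕ → K1 → Tag
  | pr : K1 → Tag

@[ext] structure Rep (J : Type) : Type where
  f : J → Tag → Option ℕ
  fin : {x : J × Tag | f x.1 x.2 ≠ none}.Finite

variable {J : Type}

/-- data of an initial stage: valid conditions and the order -/
structure Dat (J : Type) : Type where
  V : Set (Rep J)
  le : Rep J → Rep J → Prop

/-- compatibility at an initial stage -/
def cc (D : Dat J) (q e : Rep J) : Prop := ∃ r ∈ D.V, D.le r q ∧ D.le r e

/-- the name `N` of a sequence of sets is locally finite -/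
def OKn (N : K1 → K1 → Set (Rep J)) (D : Dat J) : Prop :=
  ∀ α η, η < α → ∀ r ∈ D.V, ∃ r' ∈ D.V, D.le r' r ∧ ∃ B : Finset K1, ∀ ξ < η, ξ ∉ B →
    ∀ e ∈ N α ξ, ¬ cc D r' e

variable (g : J → K1 → K1 → Set (Rep J))

/-- the order at coordinate `j` -/
def LLe (D : Dat J) (j : J) (q p : Rep J) : Prop :=
  (∀ τ v, p.f j τ = some v → q.f j τ = some v) ∧
  ∀ α m, p.f j (.pr α) = some m → ∀ x < α, ∀ v, q.f j (.bit m x) = some v → v ≠ 0 →
    p.f j (.bit m x) = none → ∀ e ∈ g j α x, ¬ cc D q e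

variable [LinearOrder J] [WellFoundedLT J]

/-- validity at coordinate `j` -/
def LVal (D : Dat J) (j : J) (p : Rep J) : Prop :=
  ∀ α, p.f j (.pr α) ≠ none → OKn (g j) D ∧ ∃ i, i < j

/-- trivial from `j` on -/
def Below (r : Rep J) (j : J) : Prop := ∀ i, j ≤ i → ∀ τ, r.f i τ = none

/-- the data of the stages, by recursion -/
noncomputable def Data : J → Dat J :=
  WellFoundedLT.fix (motive := fun _ : J => Dat J) fun j D =>
    ⟨{r | Below r j ∧ ∀ i, ∀ h : i < j, LVal g (D i h) i r},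
      fun r q => ∀ i, ∀ h : i < j, LLe g (D i h) i r q⟩

def Vl (i : J) (r : Rep J) : Prop := LVal g (Data g i) i r
def Le (i : J) (r q : Rep J) : Prop := LLe g (Data g i) i r q
def CC (i : J) (q e : Rep J) : Prop := cc (Data g i) q e

theorem Data_eq (j : J) : Data g j = ⟨{r | Below r j ∧ ∀ i, i < j → Vl g i r},
    fun r q => ∀ i, i < j → Le g i r q⟩ := by
  rw [Data, WellFoundedLT.fix_eq]
  rfl

theorem mem_V {j : J} {r : Rep J} : r ∈ (Data g j).V ↔ Below r j ∧ ∀ i, i < j → Vl g i r := by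
  rw [Data_eq]; rfl

theorem le_D {j : J} {r q : Rep J} : (Data g j).le r q ↔ ∀ i, i < j → Le g i r q := by
  rw [Data_eq]

theorem CC_iff {j : J} {q e : Rep J} : CC g j q e ↔ ∃ r, Below r j ∧ (∀ i, i < j → Vl g i r) ∧
    (∀ i, i < j → Le g i r q) ∧ (∀ i, i < j → Le g i r e) := by
  unfold CC cc
  simp only [mem_V, le_D]
  constructor
  · rintro ⟨r, ⟨h1, h2⟩, h3, h4⟩; exact ⟨r, h1, h2, h3, h4⟩
  · rintro ⟨r, h1, h2, h3, h4⟩; exact ⟨r, ⟨h1, h2⟩, h3, h4⟩

theorem Le_iff {i : J} {q p : Rep J} : Le g i q p ↔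
    (∀ τ v, p.f i τ = some v → q.f i τ = some v) ∧
    ∀ α m, p.f i (.pr α) = some m → ∀ x < α, ∀ v, q.f i (.bit m x) = some v → v ≠ 0 →
      p.f i (.bit m x) = none → ∀ e ∈ g i α x, ¬ CC g i q e := Iff.rfl

theorem Le_congr_right {i : J} {q p p' : Rep J} (h : p.f i = p'.f i) :
    Le g i q p ↔ Le g i q p' := by
  simp only [Le_iff, h]

theorem CC_mono_of {i : J} {q q' e : Rep J}
    (h : ∀ r, (∀ i', i' < i → Le g i' r q') → (∀ i', i' < i → Le g i' r q)) (hc : CC g i q' e) :
    CC g i q e := by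
  rw [CC_iff] at hc ⊢
  obtain ⟨r, h1, h2, h3, h4⟩ := hc
  exact ⟨r, h1, h2, h r h3, h4⟩

theorem CC_congr {i : J} {q q' e : Rep J} (h : ∀ i', i' < i → q.f i' = q'.f i') :
    CC g i q e ↔ CC g i q' e :=
  ⟨CC_mono_of g fun _ hr i' hi' => (Le_congr_right g (h i' hi')).1 (hr i' hi'),
   CC_mono_of g fun _ hr i' hi' => (Le_congr_right g (h i' hi')).2 (hr i' hi')⟩

theorem Le_trans_of {i : J} {r q p : Rep J} (hc : ∀ e, CC g i r e → CC g i q e)
    (h1 : Le g i r q) (h2 : Le g i q p) : Le g i r p := by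
  rw [Le_iff] at h1 h2 ⊢
  refine ⟨fun τ v hv => h1.1 τ v (h2.1 τ v hv), fun α m hm x hx v hv hv0 hn e he hce => ?_⟩
  have hqm := h2.1 _ _ hm
  by_cases hq : q.f i (.bit m x) = none
  · exact h1.2 α m hqm x hx v hv hv0 hq e he hce
  · obtain ⟨v', hv'⟩ := Option.ne_none_iff_exists'.1 hq
    have h3 := h1.1 _ _ hv'
    rw [hv] at h3
    have h4 : v = v' := Option.some.inj h3
    subst h4
    exact h2.2 α m hm x hx v hv' hv0 hn e he (hc e hce)

theorem CC_mono {i : J} {q q' e : Rep J} (h : ∀ i', i' < i → Le g i' q' q)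
    (hc : CC g i q' e) : CC g i q e := by
  induction i using WellFoundedLT.induction generalizing q q' e with
  | ind i IH =>
    refine CC_mono_of g (fun r hr i' hi' => ?_) hc
    refine Le_trans_of g (fun e he => ?_) (hr i' hi') (h i' hi')
    exact IH i' hi' (fun i'' h'' => hr i'' (h''.trans hi')) he

theorem Le_trans {i : J} {r q p : Rep J} (hb : ∀ i', i' < i → Le g i' r q)
    (h1 : Le g i r q) (h2 : Le g i q p) : Le g i r p :=
  Le_trans_of g (fun _ he => CC_mono g hb he) h1 h2

/-- if the coordinates agree then nothing has to be checked -/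
theorem Le_of_eq {i : J} {q p : Rep J} (h : q.f i = p.f i) : Le g i q p := by
  rw [Le_iff]
  refine ⟨fun τ v hv => by rw [h, hv], fun α m _ x _ v hv _ hn => ?_⟩
  rw [h, hn] at hv
  exact absurd hv (by simp)

theorem Le_of_none {i : J} {q p : Rep J} (h : ∀ τ, p.f i τ = none) : Le g i q p := by
  rw [Le_iff]
  refine ⟨fun τ v hv => ?_, fun α m hm => ?_⟩
  · rw [h] at hv; exact absurd hv (by simp)
  · rw [h] at hm; exact absurd hm (by simp)

theorem Vl_congr {i : J} {q p : Rep J} (h : q.f i = p.f i) (hp : Vl g i p) : Vl g i q := by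
  intro α hα
  rw [h] at hα
  exact hp α hα

/-! ### The poset -/

/-- the conditions -/
def Cd : Type := {r : Rep J // ∀ i, Vl g i r}

variable {g}

instance : Preorder (Cd g) where
  le r q := ∀ i, Le g i r.1 q.1
  le_refl r i := Le_of_eq g rfl
  le_trans a b c hab hbc i := Le_trans g (fun i' _ => hab i') (hab i) (hbc i)

theorem le_iff {r q : Cd g} : r ≤ q ↔ ∀ i, Le g i r.1 q.1 := Iff.rfl

/-- the trivial condition -/
def oneR (J : Type) : Rep J where
  f _ _ := none
  fin := by simp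

theorem Vl_none {i : J} {q : Rep J} (h : ∀ τ, q.f i τ = none) : Vl g i q :=
  fun _ hα => absurd (h _) hα

instance : Nonempty (Cd g) := ⟨⟨oneR J, fun _ => Vl_none fun _ => rfl⟩⟩

open Classical in
/-- `q` on `T` and `p` outside -/
noncomputable def glue (q p : Rep J) (T : Set J) : Rep J where
  f i τ := if i ∈ T then q.f i τ else p.f i τ
  fin := by
    refine (q.fin.union p.fin).subset fun x hx => ?_
    by_cases h : x.1 ∈ T
    · left; simpa [h] using hx
    · right; simpa [h] using hx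

noncomputable def res (p : Rep J) (T : Set J) : Rep J := glue p (oneR J) T

theorem glue_mem {q p : Rep J} {T : Set J} {i : J} (h : i ∈ T) : (glue q p T).f i = q.f i := by
  funext τ; exact if_pos h

theorem glue_not {q p : Rep J} {T : Set J} {i : J} (h : i ∉ T) : (glue q p T).f i = p.f i := by
  funext τ; exact if_neg h

theorem res_mem {p : Rep J} {T : Set J} {i : J} (h : i ∈ T) : (res p T).f i = p.f i := glue_mem h

theorem res_not {p : Rep J} {T : Set J} {i : J} (h : i ∉ T) (τ : Tag) : (res p T).f i τ = none := by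
  rw [res, glue_not h]; rfl

theorem Vl_res {p : Rep J} (hp : ∀ i, Vl g i p) (T : Set J) : ∀ i, Vl g i (res p T) := by
  intro i
  by_cases h : i ∈ T
  · exact Vl_congr g (res_mem h) (hp i)
  · exact Vl_none fun τ => res_not h τ

/-- restriction -/
noncomputable def resP (p : Cd g) (T : Set J) : Cd g := ⟨res p.1 T, Vl_res p.2 T⟩

theorem le_res (p : Rep J) (T : Set J) (i : J) : Le g i p (res p T) := by
  by_cases h : i ∈ T
  · exact Le_of_eq g (res_mem h).symm
  · exact Le_of_none g fun τ => res_not h τ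

theorem le_resP (p : Cd g) (T : Set J) : p ≤ resP p T := fun i => le_res p.1 T i

theorem Le_glue {q p : Rep J} {T : Set J} (hT : IsLowerSet T) (h : ∀ i ∈ T, Le g i q p) (i : J) :
    Le g i (glue q p T) p := by
  by_cases hi : i ∈ T
  · refine Le_trans g (q := q) (fun i' h' => ?_) ?_ (h i hi)
    · exact Le_of_eq g (glue_mem (hT h'.le hi))
    · exact Le_of_eq g (glue_mem hi)
  · exact Le_of_eq g (glue_not hi)

theorem Vl_glue {q p : Rep J} {T : Set J} (hq : ∀ i ∈ T, Vl g i q) (hp : ∀ i, Vl g i p)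
    (i : J) : Vl g i (glue q p T) := by
  by_cases hi : i ∈ T
  · exact Vl_congr g (glue_mem hi) (hq i hi)
  · exact Vl_congr g (glue_not hi) (hp i)

/-- `q` on `T` and `p` outside -/
noncomputable def glueP (q p : Cd g) (T : Set J) : Cd g :=
  ⟨glue q.1 p.1 T, Vl_glue (fun i _ => q.2 i) p.2⟩

theorem glueP_le {q p : Cd g} {T : Set J} (hT : IsLowerSet T) (h : ∀ i ∈ T, Le g i q.1 p.1) :
    glueP q p T ≤ p := Le_glue hT h

theorem Le_res_left {r p : Rep J} {i : J} {T : Set J} (hT : IsLowerSet T) (h : Le g i r p)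
    (hi : i ∈ T) : Le g i (res r T) p := by
  refine Le_trans_of g (q := r) (fun e he => ?_) (Le_of_eq g (res_mem hi)) h
  exact (CC_congr g fun i' h' => res_mem (hT h'.le hi)).1 he

theorem Le_glue_left {q p : Rep J} {T : Set J} (hq : ∀ i ∉ T, ∀ τ, q.f i τ = none) (i : J) :
    Le g i (glue q p T) q := by
  by_cases hi : i ∈ T
  · exact Le_of_eq g (glue_mem hi)
  · exact Le_of_none g fun τ => hq i hi τ

theorem CC_iff_compat {j : J} {q : Cd g} {e : Rep J} (he : Below e j) :
    CC g j q.1 e ↔ ∃ r : Cd g, r ≤ q ∧ ∀ i, Le g i r.1 e := by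
  rw [CC_iff]
  have hT : IsLowerSet (Set.Iio j) := isLowerSet_Iio j
  constructor
  · rintro ⟨r, h1, h2, h3, h4⟩
    have h1' : ∀ i ∉ Set.Iio j, ∀ τ, r.f i τ = none := fun i hi τ => h1 i (not_lt.1 hi) τ
    refine ⟨⟨glue r q.1 (Set.Iio j), Vl_glue h2 q.2⟩, Le_glue hT h3, fun i => ?_⟩
    by_cases hi : i < j
    · refine Le_trans g (q := r) (fun i' _ => Le_glue_left h1' i') (Le_of_eq g (glue_mem hi))
        (h4 i hi)
    · exact Le_of_none g fun τ => he i (not_lt.1 hi) τ
  · rintro ⟨r, h1, h2⟩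
    exact ⟨res r.1 (Set.Iio j), fun i hi τ => res_not (T := Set.Iio j) (not_lt.2 hi) τ, fun i _ => Vl_res r.2 _ i,
      fun i hi => Le_res_left hT (h1 i) hi, fun i hi => Le_res_left hT (h2 i) hi⟩

theorem CC_of_le {p q : Cd g} (h : q ≤ p) {j : J} {e : Rep J} (hc : CC g j q.1 e) :
    CC g j p.1 e := CC_mono g (fun i _ => h i) hc

theorem CC_of_Le {s : Cd g} {e : Rep J} (h : ∀ i, Le g i s.1 e) (j : J) : CC g j s.1 e := by
  rw [CC_iff]
  have hT : IsLowerSet (Set.Iio j) := isLowerSet_Iio j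
  exact ⟨res s.1 (Set.Iio j), fun i hi τ => res_not (T := Set.Iio j) (not_lt.2 hi) τ, fun i _ => Vl_res s.2 _ i,
    fun i hi => Le_res_left hT (Le_of_eq g rfl) hi, fun i hi => Le_res_left hT (h i) hi⟩

/-- extending below `j` -/
theorem exists_below_le (p : Cd g) (j : J) {r : Rep J} (hr : r ∈ (Data g j).V)
    (hle : ∀ i, i < j → Le g i r p.1) : ∃ q : Cd g, q ≤ p ∧ (∀ i, j ≤ i → q.1.f i = p.1.f i) ∧
      ∀ i, i < j → q.1.f i = r.f i := by
  rw [mem_V] at hr
  have hT : IsLowerSet (Set.Iio j) := isLowerSet_Iio j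
  exact ⟨⟨glue r p.1 (Set.Iio j), Vl_glue hr.2 p.2⟩, Le_glue hT hle,
    fun i hi => glue_not (not_lt.2 hi), fun i hi => glue_mem hi⟩

theorem res_mem_V (p : Cd g) (j : J) : res p.1 (Set.Iio j) ∈ (Data g j).V := by
  rw [mem_V]
  exact ⟨fun i hi τ => res_not (T := Set.Iio j) (not_lt.2 hi) τ, fun i _ => Vl_res p.2 _ i⟩

theorem decide_fin (p : Cd g) (j : J) {N : K1 → K1 → Set (Rep J)}
    (hOK : OKn N (Data g j)) {α η : K1} (h : η < α) :
    ∃ q : Cd g, q ≤ p ∧ (∀ i, j ≤ i → q.1.f i = p.1.f i) ∧ ∃ B : Finset K1, ∀ ξ < η, ξ ∉ B →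
      ∀ e ∈ N α ξ, ¬ CC g j q.1 e := by
  obtain ⟨r', hr', hle, B, hB⟩ := hOK α η h (res p.1 (Set.Iio j)) (res_mem_V p j)
  rw [le_D] at hle
  obtain ⟨q, h1, h2, h3⟩ := exists_below_le p j hr' fun i hi =>
    (Le_congr_right g (res_mem (T := Set.Iio j) hi)).1 (hle i hi)
  refine ⟨q, h1, h2, B, fun ξ hξ hξB e he hc => hB ξ hξ hξB e he ?_⟩
  exact (CC_congr g h3).1 hc

/-- deciding finitely many members of the named ladder system below `η` -/
theorem decide_finset (p : Cd g) (j : J) (η : K1) (D : Finset K1) (hD : ∀ α ∈ D, η < α)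
    (hOK : D.Nonempty → OKn (g j) (Data g j)) :
    ∃ q : Cd g, q ≤ p ∧ (∀ i, j ≤ i → q.1.f i = p.1.f i) ∧ ∃ B : Finset K1, ∀ α ∈ D,
      ∀ ξ < η, ξ ∉ B → ∀ e ∈ g j α ξ, ¬ CC g j q.1 e := by
  classical
  induction D using Finset.induction_on with
  | empty => exact ⟨p, le_rfl, fun _ _ => rfl, ∅, by simp⟩
  | insert α D _ ih =>
    obtain ⟨q, h1, h2, B, hB⟩ := ih (fun β' hβ' => hD β' (Finset.mem_insert_of_mem hβ'))
      (fun _ => hOK (Finset.insert_nonempty _ _))
    obtain ⟨q', h3, h4, B', hB'⟩ := decide_fin q j (hOK (Finset.insert_nonempty _ _))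
      (hD α (Finset.mem_insert_self _ _))
    refine ⟨q', h3.trans h1, fun i hi => (h4 i hi).trans (h2 i hi), B ∪ B', ?_⟩
    intro β' hβ' ξ hξ hξB e he hc
    rw [Finset.mem_union, not_or] at hξB
    rcases Finset.mem_insert.1 hβ' with rfl | hβ'
    · exact hB' ξ hξ hξB.2 e he hc
    · exact hB β' hβ' ξ hξ hξB.1 e he (CC_of_le h3 hc)

/-! ### Unions -/

open Classical in
/-- the union, with preference to the first one -/
noncomputable def union (p q : Rep J) : Rep J where
  f i τ := if p.f i τ = none then q.f i τ else p.f i τ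
  fin := by
    refine (p.fin.union q.fin).subset fun x hx => ?_
    by_cases h : p.f x.1 x.2 = none
    · right; simpa [h] using hx
    · left; exact h

theorem union_left {p q : Rep J} {i : J} {τ : Tag} (h : p.f i τ ≠ none) :
    (union p q).f i τ = p.f i τ := if_neg h

theorem union_of_none {p q : Rep J} {i : J} {τ : Tag} (h : p.f i τ = none) :
    (union p q).f i τ = q.f i τ := if_pos h

theorem union_right {p q : Rep J} {i : J} {τ : Tag}
    (hag : p.f i τ ≠ none → q.f i τ ≠ none → p.f i τ = q.f i τ) (h : q.f i τ ≠ none) :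
    (union p q).f i τ = q.f i τ := by
  by_cases h' : p.f i τ = none
  · exact if_pos h'
  · rw [union_left h', hag h' h]

theorem Vl_union {p q : Rep J} (hp : ∀ i, Vl g i p) (hq : ∀ i, Vl g i q) (i : J) :
    Vl g i (union p q) := by
  intro α hα
  by_cases h : p.f i (.pr α) = none
  · rw [union_of_none h] at hα
    exact hq i α hα
  · exact hp i α h

/-- when the union of two conditions is a common extension -/
theorem union_le {q p : Cd g}
    (hag : ∀ i τ, q.1.f i τ ≠ none → p.1.f i τ ≠ none → q.1.f i τ = p.1.f i τ)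
    (h1 : ∀ i α m, q.1.f i (.pr α) = some m → ∀ x < α, ∀ v, p.1.f i (.bit m x) = some v → v ≠ 0 →
      q.1.f i (.bit m x) = none → ∀ e ∈ g i α x, ¬ CC g i q.1 e)
    (h2 : ∀ i α m, p.1.f i (.pr α) = some m → ∀ x < α, ∀ v, q.1.f i (.bit m x) = some v → v ≠ 0 →
      p.1.f i (.bit m x) = none → ∀ e ∈ g i α x, ¬ CC g i q.1 e) :
    ∃ u : Cd g, u ≤ q ∧ u ≤ p ∧ u.1 = union q.1 p.1 := by
  have hq : ∀ i, Le g i (union q.1 p.1) q.1 := by
    intro i
    induction i using WellFoundedLT.induction with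
    | ind i IH =>
      rw [Le_iff]
      refine ⟨fun τ v hv => ?_, fun α m hm x hx v hv hv0 hn e he hc => ?_⟩
      · rw [union_left (by rw [hv]; simp), hv]
      · rw [union_of_none hn] at hv
        exact h1 i α m hm x hx v hv hv0 hn e he (CC_mono g (fun i' hi' => IH i' hi') hc)
  refine ⟨⟨union q.1 p.1, Vl_union q.2 p.2⟩, hq, fun i => ?_, rfl⟩
  rw [Le_iff]
  refine ⟨fun τ v hv => ?_, fun α m hm x hx v hv hv0 hn e he hc => ?_⟩
  · show (union q.1 p.1).f i τ = some v
    rw [union_right (hag i τ) (by rw [hv]; simp), hv]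
  · have hv' : (union q.1 p.1).f i (.bit m x) = some v := hv
    by_cases hqn : q.1.f i (.bit m x) = none
    · rw [union_of_none hqn, hn] at hv'
      exact absurd hv' (by simp)
    · rw [union_left hqn] at hv'
      exact h2 i α m hm x hx v hv' hv0 hn e he (CC_mono g (fun i' _ => hq i') hc)

open Classical in
/-- replace one coordinate -/
noncomputable def setAt (p : Rep J) (j : J) (u : Tag → Option ℕ)
    (hu : {τ | u τ ≠ none}.Finite) : Rep J where
  f i τ := if i = j then u τ else p.f i τ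
  fin := by
    refine (p.fin.union (hu.image fun τ => (j, τ))).subset fun x hx => ?_
    by_cases h : x.1 = j
    · right
      refine ⟨x.2, by simpa [h] using hx, ?_⟩
      rw [← h]
    · left; simpa [h] using hx

theorem setAt_self {p : Rep J} {j : J} {u : Tag → Option ℕ} {hu : {τ | u τ ≠ none}.Finite} :
    (setAt p j u hu).f j = u := by
  funext τ; exact if_pos rfl

theorem setAt_ne {p : Rep J} {j i : J} {u : Tag → Option ℕ} {hu : {τ | u τ ≠ none}.Finite}
    (h : i ≠ j) : (setAt p j u hu).f i = p.f i := by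
  funext τ; exact if_neg h

theorem fin_at (p : Rep J) (j : J) : {τ | p.f j τ ≠ none}.Finite := by
  refine (p.fin.image Prod.snd).subset fun τ hτ => ⟨(j, τ), hτ, rfl⟩

theorem fin_supp (p : Rep J) : {i | ∃ τ, p.f i τ ≠ none}.Finite := by
  refine (p.fin.image Prod.fst).subset ?_
  rintro i ⟨τ, hτ⟩
  exact ⟨(i, τ), hτ, rfl⟩

/-- adding one value -/
theorem add_tag (p : Cd g) (j : J) (τ : Tag) (hn : p.1.f j τ = none) (k : ℕ)
    (hpr : ∀ α, τ = .pr α → OKn (g j) (Data g j) ∧ ∃ i, i < j)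
    (hbit : ∀ m x, τ = .bit m x → k ≠ 0 → ∀ α, p.1.f j (.pr α) = some m → α ≤ x) :
    ∃ q : Cd g, q ≤ p ∧ q.1.f j τ = some k ∧ (∀ τ', τ' ≠ τ → q.1.f j τ' = p.1.f j τ') ∧
      ∀ i, i ≠ j → q.1.f i = p.1.f i := by
  classical
  set u : Tag → Option ℕ := fun τ' => if τ' = τ then some k else p.1.f j τ' with hu
  have hself : u τ = some k := if_pos rfl
  have hne : ∀ τ', τ' ≠ τ → u τ' = p.1.f j τ' := fun τ' h => if_neg h
  have hfin : {τ' | u τ' ≠ none}.Finite := by
    refine ((fin_at p.1 j).union (Set.finite_singleton τ)).subset fun τ' hτ' => ?_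
    by_cases h : τ' = τ
    · right; exact h
    · left
      have : u τ' ≠ none := hτ'
      rwa [hne τ' h] at this
  have hle : ∀ i, Le g i (setAt p.1 j u hfin) p.1 := by
    intro i
    by_cases h : i = j
    · subst h
      rw [Le_iff]
      refine ⟨fun τ' v hv => ?_, fun α m hm x hx v hv hv0 hn' e he hc => ?_⟩
      · rw [setAt_self, hne τ', hv]
        rintro rfl
        rw [hn] at hv
        exact absurd hv (by simp)
      · rw [setAt_self] at hv
        by_cases hτ : Tag.bit m x = τ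
        · subst hτ
          rw [hself] at hv
          have hk : k = v := Option.some.inj hv
          exact absurd hx (not_lt.2 (hbit m x rfl (hk ▸ hv0) α hm))
        · rw [hne _ hτ, hn'] at hv
          exact absurd hv (by simp)
    · exact Le_of_eq g (setAt_ne h)
  refine ⟨⟨setAt p.1 j u hfin, fun i => ?_⟩, hle, ?_, fun τ' h => ?_,
    fun i hi => setAt_ne (hu := hfin) hi⟩
  · by_cases h : i = j
    · subst h
      intro α hα
      rw [setAt_self] at hα
      by_cases hτ : Tag.pr α = τ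
      · exact hpr α hτ.symm
      · rw [hne _ hτ] at hα
        exact p.2 i α hα
    · exact Vl_congr g (setAt_ne h) (p.2 i)
  · show (setAt p.1 j u hfin).f j τ = some k
    rw [setAt_self, hself]
  · show (setAt p.1 j u hfin).f j τ' = p.1.f j τ'
    rw [setAt_self, hne τ' h]

end Pool.Agent.W876.Prox.Poset
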