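import Mathlib
import Pool.Agent.Helper126.Lam.Forc
import Pool.Agent.Helper761.Omega1
import Pool.Agent.W876.Prox.Poset

/-!
# Combinatorics of the countable ordinals
-/

namespace Pool.Agent.W876.Prox.Omega

open Cardinal Pool.Agent.Helper126.Lam.Forc Pool.Agent.Helper761.Om Pool.Agent.W876.Prox.Poset

set_option linter.unusedSectionVars false

theorem mk_K1 : #K1 = ℵ_ 1 := by rw [mk_toType, card_ord]

instance : Nonempty K1 := by
  rw [← mk_ne_zero_iff, mk_K1]
  exact (aleph_pos 1).ne'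

theorem countable_Iio (α : K1) : (Set.Iio α).Countable := by
  have h : #(Set.Iio α) < #K1 := Cardinal.mk_Iio_lt α (by simp [K1])
  rw [← Cardinal.le_aleph0_iff_set_countable]
  have h1 : #K1 = Order.succ ℵ₀ := by
    rw [mk_toType, card_ord]; exact succ_aleph0.symm
  exact Order.lt_succ_iff.1 (h.trans_eq h1)

theorem countable_Iic (α : K1) : (Set.Iic α).Countable := by
  rw [← Set.Iio_insert]
  exact (countable_Iio α).insert α

theorem bounded (A : Set K1) (hA : A.Countable) : ∃ b, ∀ a ∈ A, a < b := by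
  by_contra hcon
  push Not at hcon
  have h2 : (Set.univ : Set K1) = ⋃ a ∈ A, Set.Iic a := by
    ext b
    simp only [Set.mem_univ, Set.mem_iUnion, Set.mem_Iic, exists_prop, true_iff]
    obtain ⟨a, ha, hba⟩ := hcon b
    exact ⟨a, ha, hba⟩
  have h3 : (Set.univ : Set K1).Countable := by
    rw [h2]
    exact hA.biUnion fun a _ => countable_Iic a
  have h5 : #K1 ≤ ℵ₀ := by
    have := Cardinal.le_aleph0_iff_set_countable.2 h3
    rwa [Cardinal.mk_univ] at this
  rw [mk_K1] at h5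
  exact absurd h5 (not_le.2 aleph0_lt_aleph_one)

theorem bounded_finite (A : Set K1) (hA : A.Finite) : ∃ b, ∀ a ∈ A, a < b :=
  bounded A hA.countable

theorem press {E : Type*} (Es : K1 → Set E) (hEs : ∀ a, (Es a).Countable) (R : K1 → E → Prop)
    (hf : ∀ δ, Lim δ → ∃ β < δ, ∃ e ∈ Es β, R δ e) :
    ∃ e, ∀ b, ∃ δ, b < δ ∧ Lim δ ∧ R δ e :=
  pressing countable_Iio bounded Es hEs R hf

/-- closure points -/
theorem exists_closed (h : K1 → K1) (b : K1) : ∃ α, Lim α ∧ b < α ∧ ∀ ξ < α, h ξ < α := by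
  have hg : ∀ β : K1, ∃ g : K1, β < g ∧ ∀ β' ≤ β, h β' < g := by
    intro β
    obtain ⟨g, hg⟩ := bounded (insert β (h '' Set.Iic β)) (((countable_Iic β).image h).insert β)
    exact ⟨g, hg β (Set.mem_insert _ _), fun β' hβ' =>
      hg _ (Set.mem_insert_of_mem _ (Set.mem_image_of_mem h hβ'))⟩
  choose g hg1 hg2 using hg
  let s : ℕ → K1 := fun n => g^[n] b
  have hs : ∀ n, s (n + 1) = g (s n) := fun n => Function.iterate_succ_apply' g n _
  obtain ⟨δ, hL, hlt, hcof⟩ := exists_lub bounded s (fun n => by rw [hs]; exact hg1 _)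
  refine ⟨δ, hL, hlt 0, fun ξ hξ => ?_⟩
  obtain ⟨n, hn⟩ := hcof ξ hξ
  have h1 : h ξ < s (n + 1) := by rw [hs]; exact hg2 _ _ hn
  exact h1.trans (hlt _)

/-- finitely many elements below a limit are bounded below it -/
theorem bounded_below {α : K1} (hα : Lim α) (A : Set K1) (hA : A.Finite) :
    ∃ b < α, ∀ a ∈ A, a < α → a ≤ b := by
  induction A, hA using Set.Finite.induction_on with
  | empty =>
    obtain ⟨b, hb⟩ := hα.1
    exact ⟨b, hb, by simp⟩
  | @insert a A _ _ ih =>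
    obtain ⟨b, hb, hb'⟩ := ih
    by_cases ha : a < α
    · refine ⟨max a b, max_lt ha hb, fun c hc hcα => ?_⟩
      rcases hc with rfl | hc
      · exact le_max_left _ _
      · exact (hb' c hc hcα).trans (le_max_right _ _)
    · refine ⟨b, hb, fun c hc hcα => ?_⟩
      rcases hc with rfl | hc
      · exact absurd hcα ha
      · exact hb' c hc hcα

/-- a coding of the candidates for the elements of a ladder -/
theorem exists_lad (α : K1) (hα : Lim α) : ∃ l : ℕ → ℕ → K1, (∀ n k, l n k < α) ∧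
    (∀ η < α, ∃ n0, ∀ n, n0 ≤ n → ∀ k, η ≤ l n k) ∧
    ∀ n, ∃ c < α, ∀ x, c ≤ x → x < α → ∃ k, l n k = x := by
  obtain ⟨s, hs⟩ := (countable_Iio α).exists_eq_range hα.1
  have hs' : ∀ n, s n < α := fun n => by
    have : s n ∈ Set.Iio α := by rw [hs]; exact ⟨n, rfl⟩
    exact this
  let c : ℕ → K1 := fun n => (Finset.range (n + 1)).sup' ⟨0, by simp⟩ s
  have hc : ∀ n, c n < α := by
    intro n
    exact (Finset.sup'_lt_iff _).2 fun i _ => hs' i
  have hsc : ∀ i n, i ≤ n → s i ≤ c n := fun i n hin =>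
    Finset.le_sup' s (Finset.mem_range.2 (Nat.lt_succ_of_le hin))
  have hex : ∀ n, ∃ f : ℕ → K1, {x | c n ≤ x ∧ x < α} = Set.range f := fun n =>
    Set.Countable.exists_eq_range ((countable_Iio α).mono fun x hx => hx.2) ⟨c n, le_rfl, hc n⟩
  choose f hf using hex
  have hf' : ∀ n k, c n ≤ f n k ∧ f n k < α := fun n k => by
    have : f n k ∈ {x | c n ≤ x ∧ x < α} := by rw [hf]; exact ⟨k, rfl⟩
    exact this
  refine ⟨f, fun n k => (hf' n k).2, fun η hη => ?_, fun n => ⟨c n, hc n, fun x h1 h2 => ?_⟩⟩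
  · have : η ∈ Set.range s := by rw [← hs]; exact hη
    obtain ⟨i, rfl⟩ := this
    exact ⟨i, fun n hn k => (hsc i n hn).trans (hf' n k).1⟩
  · have : x ∈ Set.range (f n) := by rw [← hf]; exact ⟨h1, h2⟩
    exact this

open Classical in
/-- the candidates for the `n`-th element of the generic ladder at `α` -/
noncomputable def lad (α : K1) : ℕ → ℕ → K1 :=
  if h : Lim α then (exists_lad α h).choose else fun _ _ => α

theorem lad_spec {α : K1} (hα : Lim α) : (∀ n k, lad α n k < α) ∧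
    (∀ η < α, ∃ n0, ∀ n, n0 ≤ n → ∀ k, η ≤ lad α n k) ∧
    ∀ n, ∃ c < α, ∀ x, c ≤ x → x < α → ∃ k, lad α n k = x := by
  have : lad α = (exists_lad α hα).choose := dif_pos hα
  rw [this]
  exact (exists_lad α hα).choose_spec

/-- the ordinal of a place -/
def lv : Tag → K1
  | .co α _ => α
  | .bit _ x => x
  | .pr α => α

theorem countable_lv (α : K1) : {τ | lv τ ≤ α}.Countable := by
  have h1 : {τ | lv τ ≤ α} ⊆ (Set.range fun x : Set.Iic α × ℕ => Tag.co x.1 x.2) ∪
      ((Set.range fun x : Set.Iic α × ℕ => Tag.bit x.2 x.1) ∪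
        Set.range fun x : Set.Iic α => Tag.pr x.1) := by
    intro τ hτ
    cases τ with
    | co x n => left; exact ⟨(⟨x, hτ⟩, n), rfl⟩
    | bit n x => right; left; exact ⟨(⟨x, hτ⟩, n), rfl⟩
    | pr x => right; right; exact ⟨⟨x, hτ⟩, rfl⟩
  have : Countable (Set.Iic α) := countable_Iic α
  exact ((Set.countable_range _).union ((Set.countable_range _).union
    (Set.countable_range _))).mono h1

theorem countable_fun (α : K1) :
    {e : Tag → Option ℕ | {τ | e τ ≠ none}.Finite ∧ ∀ τ, e τ ≠ none → lv τ ≤ α}.Countable := by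
  let gr : (Tag → Option ℕ) → Set (Tag × ℕ) := fun e => {x | e x.1 = some x.2}
  have hinj : Function.Injective gr := by
    intro e e' h
    have h1 : ∀ τ v, e τ = some v ↔ e' τ = some v := by
      intro τ v
      have := congrArg (fun S => (τ, v) ∈ S) h
      simpa [gr] using this
    funext τ
    cases hr : e τ with
    | some v => exact ((h1 τ v).1 hr).symm
    | none =>
      cases hr' : e' τ with
      | some v =>
        rw [← h1] at hr'
        rw [hr] at hr'
        exact absurd hr' (by simp)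
      | none => rfl
  have hc : {x : Tag × ℕ | lv x.1 ≤ α}.Countable := by
    have := (countable_lv α).prod (Set.countable_univ (α := ℕ))
    exact this.mono fun x hx => Set.mem_prod.2 ⟨hx, Set.mem_univ _⟩
  have h := Set.countable_ofPred_finite_subset hc
  refine (h.preimage_of_injOn (f := gr) hinj.injOn).mono ?_
  rintro e ⟨h1, h2⟩
  refine ⟨?_, fun x hx => h2 x.1 (by
    have : e x.1 = some x.2 := hx
    rw [this]; simp)⟩
  refine Set.Finite.of_finite_image (f := Prod.fst) (h1.subset ?_) ?_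
  · rintro _ ⟨x, hx, rfl⟩
    have : e x.1 = some x.2 := hx
    show e x.1 ≠ none
    rw [this]; simp
  · rintro ⟨x, v⟩ hx ⟨y, w⟩ hy hxy
    have hxy' : x = y := hxy
    subst hxy'
    have h1 : e x = some v := hx
    have h2 : e x = some w := hy
    rw [h1] at h2
    rw [Option.some.inj h2]

theorem countable_finset (α : K1) : {F : Finset K1 | ∀ y ∈ F, y ≤ α}.Countable := by
  have h := Set.countable_ofPred_finite_subset (countable_Iic α)
  refine (h.preimage_of_injOn (f := fun F : Finset K1 => (F : Set K1))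
    (Finset.coe_injective.injOn)).mono fun F hF => ?_
  exact ⟨F.finite_toSet, fun y hy => hF y hy⟩

/-- a root for finite functions -/
theorem exists_root {Z : Set K1} (hZ : ∀ a, ∃ b ∈ Z, a ≤ b) (w : K1 → Tag → Option ℕ)
    (hw : ∀ ξ, {τ | w ξ τ ≠ none}.Finite) :
    ∃ e : Tag → Option ℕ, ∀ b, ∃ δ, b < δ ∧ (∀ τ, e τ ≠ none → lv τ < δ) ∧
      ∃ ξ ∈ Z, δ ≤ ξ ∧ ∀ τ, lv τ < δ → w ξ τ = e τ := by
  classical
  obtain ⟨e, he⟩ := press
    (fun α => {e : Tag → Option ℕ | {τ | e τ ≠ none}.Finite ∧ ∀ τ, e τ ≠ none → lv τ ≤ α})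
    countable_fun
    (fun δ e => (∀ τ, e τ ≠ none → lv τ < δ) ∧ ∃ ξ ∈ Z, δ ≤ ξ ∧ ∀ τ, lv τ < δ → w ξ τ = e τ)
    (by
      intro δ hδ
      obtain ⟨ξ, hξ, hle⟩ := hZ δ
      let e : Tag → Option ℕ := fun τ => if lv τ < δ then w ξ τ else none
      have he : ∀ τ, e τ ≠ none → lv τ < δ ∧ w ξ τ ≠ none := by
        intro τ hτ
        by_cases h : lv τ < δ
        · exact ⟨h, by simpa [e, h] using hτ⟩
        · exact absurd (if_neg h) hτ
      have hfin : {τ | e τ ≠ none}.Finite := (hw ξ).subset fun τ hτ => (he τ hτ).2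
      obtain ⟨b, hb, hb'⟩ := bounded_below hδ (lv '' {τ | e τ ≠ none}) (hfin.image lv)
      exact ⟨b, hb, e, ⟨hfin, fun τ hτ => hb' _ ⟨τ, hτ, rfl⟩ (he τ hτ).1⟩,
        fun τ hτ => (he τ hτ).1, ξ, hξ, hle, fun τ hτ => (if_pos hτ).symm⟩)
  refine ⟨e, fun b => ?_⟩
  obtain ⟨δ, h1, _, h2, h3⟩ := he b
  exact ⟨δ, h1, h2, h3⟩

end Pool.Agent.W876.Prox.Omega
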