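import Mathlib
import Pool.Agent.Helper126.Lam.Forc
import Pool.Agent.Helper761.Omega1
import Pool.Agent.W876.Prox.Poset
import Pool.Agent.W876.Prox.Omega

/-!
# The generic ladder system hits all named uncountable sets
-/

namespace Pool.Agent.W876.Prox.Hit

open Cardinal Pool.Agent.Helper126.Lam.Forc Pool.Agent.Helper761.Om Pool.Agent.W876.Prox.Poset
  Pool.Agent.W876.Prox.Omega

set_option linter.unusedSectionVars false

variable {J : Type} {g : J → K1 → K1 → Set (Rep J)} [LinearOrder J] [WellFoundedLT J]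

/-- the generic ladder system: `x` belongs to the ladder at `α` -/
def Ln (g : J → K1 → K1 → Set (Rep J)) (j0 : J) (α x : K1) : Set (Cd g) :=
  {p | ∃ n k, p.1.f j0 (.co α n) = some k ∧ lad α n k = x}

theorem down_Ln (j0 : J) (α x : K1) : Down (Ln g j0 α x) := by
  rintro p ⟨n, k, h1, h2⟩ q hq
  exact ⟨n, k, (hq j0).1 _ _ h1, h2⟩

/-- the generic ladder system hits all families of conditions with support in `T` -/
def Star (g : J → K1 → K1 → Set (Rep J)) (j0 : J) (T : Set J) : Prop :=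
  ∀ (Z : Set K1), (∀ a, ∃ b ∈ Z, a ≤ b) → ∀ p : K1 → Cd g,
    (∀ ξ, ∀ i ∉ T, ∀ τ, (p ξ).1.f i τ = none) → ∀ β : K1 → K1, (∀ ξ, ξ ≤ β ξ) →
    ∀ h : K1 → K1, ∃ α, Lim α ∧ (∀ ξ < α, h ξ < α) ∧ ∃ r : Cd g,
      (∀ i ∉ T, ∀ τ, r.1.f i τ = none) ∧
      ∀ q ≤ r, ∀ δ < α, ∃ ξ ∈ Z, δ ≤ ξ ∧ ξ < α ∧ ∃ q' ≤ q, q' ≤ p ξ ∧ q' ∈ Ln g j0 α (β ξ) ∧
        ∀ i ∉ T, q'.1.f i = q.1.f i

theorem union_eq_left {q p : Rep J} {i : J} (h : ∀ τ, p.f i τ = none) :
    (union q p).f i = q.f i := by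
  funext τ
  by_cases hq : q.f i τ = none
  · rw [union_of_none hq, h, hq]
  · rw [union_left hq]

theorem no_pr {j0 : J} (hj0 : ∀ i, j0 ≤ i) (q : Cd g) (α : K1) : q.1.f j0 (.pr α) = none := by
  by_contra h
  obtain ⟨_, i, hi⟩ := q.2 j0 α h
  exact absurd hi (not_lt.2 (hj0 i))

theorem exists_fresh (p : Rep J) (j : J) (α : K1) : ∃ n, p.f j (.co α n) = none := by
  have hfin : {n | p.f j (.co α n) ≠ none}.Finite :=
    (fin_at p j).preimage (f := fun n => Tag.co α n) fun x _ y _ h => by simpa using h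
  obtain ⟨n, hn⟩ := hfin.infinite_compl.nonempty
  exact ⟨n, by simpa using hn⟩

theorem star_base {j0 : J} (hj0 : ∀ i, j0 ≤ i) : Star g j0 (Set.Iic j0) := by
  classical
  intro Z hZ p hp β hβ h
  obtain ⟨e, he⟩ := exists_root hZ (fun ξ => (p ξ).1.f j0) (fun ξ => fin_at (p ξ).1 j0)
  choose δf h1 h2 ξf h3 h4 h5 using he
  choose B hB using fun ξ => bounded_finite (lv '' {τ | (p ξ).1.f j0 τ ≠ none})
    ((fin_at (p ξ).1 j0).image lv)
  obtain ⟨α, hα, _, hcl⟩ := exists_closed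
    (fun b => max (max (h b) (ξf b)) (max (B (ξf b)) (β (ξf b)))) (Classical.arbitrary K1)
  have hcl1 : ∀ b < α, h b < α := fun b hb =>
    ((le_max_left _ _).trans (le_max_left _ _)).trans_lt (hcl b hb)
  have hcl2 : ∀ b < α, ξf b < α := fun b hb =>
    ((le_max_right _ _).trans (le_max_left _ _)).trans_lt (hcl b hb)
  have hcl3 : ∀ b < α, B (ξf b) < α := fun b hb =>
    ((le_max_left _ _).trans (le_max_right _ _)).trans_lt (hcl b hb)
  have hcl4 : ∀ b < α, β (ξf b) < α := fun b hb =>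
    ((le_max_right _ _).trans (le_max_right _ _)).trans_lt (hcl b hb)
  obtain ⟨b0, hb0⟩ := hα.1
  have heq : ∀ b τ, e τ ≠ none → (p (ξf b)).1.f j0 τ = e τ := fun b τ hτ => h5 b τ (h2 b τ hτ)
  have hefin : {τ | e τ ≠ none}.Finite := by
    refine (fin_at (p (ξf b0)).1 j0).subset fun τ hτ => ?_
    show (p (ξf b0)).1.f j0 τ ≠ none
    rw [heq b0 τ hτ]; exact hτ
  have hrV : ∀ i, Vl g i (setAt (oneR J) j0 e hefin) := by
    intro i
    by_cases hi : i = j0
    · subst hi
      intro a ha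
      rw [setAt_self] at ha
      exact (p (ξf b0)).2 i a (by rw [heq b0 _ ha]; exact ha)
    · exact Vl_congr g (setAt_ne hi) (Vl_none fun _ => rfl)
  refine ⟨α, hα, hcl1, ⟨setAt (oneR J) j0 e hefin, hrV⟩, fun i hi τ => ?_, ?_⟩
  · have hne : i ≠ j0 := fun h => hi (by rw [h]; exact le_rfl)
    show (setAt (oneR J) j0 e hefin).f i τ = none
    rw [setAt_ne hne]; rfl
  intro q hq δ hδ
  have hqe : ∀ τ, e τ ≠ none → q.1.f j0 τ = e τ := by
    intro τ hτ
    obtain ⟨v, hv⟩ := Option.ne_none_iff_exists'.1 hτ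
    rw [hv]
    refine (hq j0).1 τ v ?_
    show (setAt (oneR J) j0 e hefin).f j0 τ = some v
    rw [setAt_self, hv]
  obtain ⟨n, hn⟩ := exists_fresh q.1 j0 α
  obtain ⟨c, hc, hlad⟩ := (lad_spec hα).2.2 n
  obtain ⟨b, hb, hb'⟩ := bounded_below hα (lv '' {τ | q.1.f j0 τ ≠ none} ∪ {c, δ})
    (((fin_at q.1 j0).image lv).union (by simp))
  have hcb : c ≤ b := hb' c (by simp) hc
  have hδb : δ ≤ b := hb' δ (by simp) hδ
  have hbξ : b < ξf b := (h1 b).trans_le (h4 b)
  have hag : ∀ i τ, q.1.f i τ ≠ none → (p (ξf b)).1.f i τ ≠ none →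
      q.1.f i τ = (p (ξf b)).1.f i τ := by
    intro i τ hq1 hp1
    by_cases hi : i = j0
    · subst hi
      by_cases hl : lv τ < δf b
      · rw [h5 b τ hl] at hp1 ⊢
        exact hqe τ hp1
      · have h6 : lv τ < α := (hB (ξf b) _ ⟨τ, hp1, rfl⟩).trans (hcl3 b hb)
        have h7 : lv τ ≤ b := hb' _ (Or.inl ⟨τ, hq1, rfl⟩) h6
        exact absurd (h7.trans_lt (h1 b)) hl
    · exact absurd (hp (ξf b) i (fun h => hi (le_antisymm h (hj0 i))) τ) hp1
  obtain ⟨u, hu1, hu2, hu3⟩ := union_le hag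
    (fun i a m ha x _ v hv _ _ e' _ _ => by
      by_cases hi : i = j0
      · subst hi
        rw [no_pr hj0] at ha
        exact absurd ha (by simp)
      · rw [hp (ξf b) i (fun h => hi (le_antisymm h (hj0 i)))] at hv
        exact absurd hv (by simp))
    (fun i a m ha x _ v hv _ _ e' _ _ => by
      by_cases hi : i = j0
      · subst hi
        rw [no_pr hj0] at ha
        exact absurd ha (by simp)
      · rw [hp (ξf b) i (fun h => hi (le_antisymm h (hj0 i)))] at ha
        exact absurd ha (by simp))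
  obtain ⟨k, hk⟩ := hlad (β (ξf b)) (hcb.trans (hbξ.le.trans (hβ _))) (hcl4 b hb)
  have hun : u.1.f j0 (.co α n) = none := by
    rw [hu3, union_of_none hn]
    by_contra hcon
    have h6 : lv (Tag.co α n) < α := (hB (ξf b) _ ⟨_, hcon, rfl⟩).trans (hcl3 b hb)
    exact absurd h6 (lt_irrefl _)
  obtain ⟨q', hq1, hq2, _, hq3⟩ := add_tag u j0 (.co α n) hun k (by simp) (by simp)
  refine ⟨ξf b, h3 b, hδb.trans hbξ.le, hcl2 b hb, q', hq1.trans hu1, hq1.trans hu2,
    ⟨n, k, hq2, hk⟩, fun i hi => ?_⟩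
  have hne : i ≠ j0 := fun h => hi (by rw [h]; exact le_rfl)
  rw [hq3 i hne, hu3, union_eq_left (hp _ i hi)]

theorem star_limit {j0 : J} {T : Set J} (hT : IsLowerSet T) (h0 : j0 ∈ T)
    (hS : ∀ i ∈ T, Star g j0 (Set.Iic i)) : Star g j0 T := by
  classical
  intro Z hZ p hp β hβ h
  have hsuppT : ∀ ξ i τ, (p ξ).1.f i τ ≠ none → i ∈ T := by
    intro ξ i τ h1
    by_contra h2
    exact h1 (hp ξ i h2 τ)
  obtain ⟨F, hF⟩ := press (E := Finset J)
    (fun a => {F | ∀ i ∈ F, ∃ ξ ≤ a, ∃ τ, (p ξ).1.f i τ ≠ none})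
    (by
      intro a
      have h1 : (⋃ ξ ∈ Set.Iic a, {i | ∃ τ, (p ξ).1.f i τ ≠ none}).Countable :=
        (countable_Iic a).biUnion fun ξ _ => (fin_supp (p ξ).1).countable
      have h2 := Set.countable_ofPred_finite_subset h1
      refine (h2.preimage_of_injOn (f := fun F : Finset J => (F : Set J))
        (Finset.coe_injective.injOn)).mono fun F hF => ?_
      refine ⟨F.finite_toSet, fun i hi => ?_⟩
      obtain ⟨ξ, hξ, h3⟩ := hF i hi
      exact Set.mem_biUnion hξ h3)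
    (fun δ F => (∀ i ∈ F, i ∈ T) ∧ ∃ ξ ∈ Z, δ ≤ ξ ∧ ∀ i, (∃ τ, (p ξ).1.f i τ ≠ none) →
      (∃ ξ' < δ, ∃ τ, (p ξ').1.f i τ ≠ none) → i ∈ F)
    (by
      intro δ hδ
      obtain ⟨ξ, hξ, hle⟩ := hZ δ
      have hfin : {i | (∃ τ, (p ξ).1.f i τ ≠ none) ∧
          ∃ ξ' < δ, ∃ τ, (p ξ').1.f i τ ≠ none}.Finite :=
        (fin_supp (p ξ).1).subset fun i hi => hi.1
      have hch : ∀ i : J, ∃ ξ' : K1, (∃ ξ' < δ, ∃ τ, (p ξ').1.f i τ ≠ none) →
          ξ' < δ ∧ ∃ τ, (p ξ').1.f i τ ≠ none := by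
        intro i
        by_cases h1 : ∃ ξ' < δ, ∃ τ, (p ξ').1.f i τ ≠ none
        · obtain ⟨ξ', h2, h3⟩ := h1
          exact ⟨ξ', fun _ => ⟨h2, h3⟩⟩
        · exact ⟨δ, fun h2 => absurd h2 h1⟩
      choose c hc using hch
      obtain ⟨b, hb, hb'⟩ := bounded_below hδ (c '' {i | (∃ τ, (p ξ).1.f i τ ≠ none) ∧
          ∃ ξ' < δ, ∃ τ, (p ξ').1.f i τ ≠ none}) (hfin.image c)
      refine ⟨b, hb, hfin.toFinset, fun i hi => ?_, fun i hi => ?_, ξ, hξ, hle, fun i h1 h2 => ?_⟩
      · have hi' := hfin.mem_toFinset.1 hi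
        exact ⟨c i, hb' _ ⟨i, hi', rfl⟩ (hc i hi'.2).1, (hc i hi'.2).2⟩
      · obtain ⟨⟨τ, hτ⟩, _⟩ := hfin.mem_toFinset.1 hi
        exact hsuppT ξ i τ hτ
      · exact hfin.mem_toFinset.2 ⟨h1, h2⟩)
  choose δf h1 _ h2 ξf h3 h4 h5 using hF
  have hne : (insert j0 F).Nonempty := Finset.insert_nonempty _ _
  set i0 := (insert j0 F).max' hne with hi0
  have hFi0 : ∀ i ∈ F, i ≤ i0 := fun i hi => Finset.le_max' _ _ (Finset.mem_insert_of_mem hi)
  have hi0T : i0 ∈ T := by
    have := Finset.max'_mem (insert j0 F) hne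
    rcases Finset.mem_insert.1 this with h6 | h6
    · rw [hi0, h6]; exact h0
    · exact h2 (Classical.arbitrary K1) _ h6
  have hIic : ∀ i ∉ T, i ∉ Set.Iic i0 := fun i hi h6 => hi (hT h6 hi0T)
  obtain ⟨α, hα, hcl, r, hr1, hr2⟩ := hS i0 hi0T Set.univ (fun a => ⟨a, trivial, le_rfl⟩)
    (fun b => resP (p (ξf b)) (Set.Iic i0)) (fun b i hi τ => res_not hi τ)
    (fun b => β (ξf b)) (fun b => (h1 b).le.trans ((h4 b).trans (hβ _)))
    (fun b => max (h b) (ξf b))
  refine ⟨α, hα, fun b hb => (le_max_left _ _).trans_lt (hcl b hb), r,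
    fun i hi τ => hr1 i (hIic i hi) τ, ?_⟩
  intro q hq δ hδ
  have hch : ∀ i : J, ∃ ξ' : K1, (∃ ξ' < α, ∃ τ, (p ξ').1.f i τ ≠ none) →
      ξ' < α ∧ ∃ τ, (p ξ').1.f i τ ≠ none := by
    intro i
    by_cases h1 : ∃ ξ' < α, ∃ τ, (p ξ').1.f i τ ≠ none
    · obtain ⟨ξ', h2, h3⟩ := h1
      exact ⟨ξ', fun _ => ⟨h2, h3⟩⟩
    · exact ⟨α, fun h2 => absurd h2 h1⟩
  choose c hc using hch
  obtain ⟨b1, hb1, hb1'⟩ := bounded_below hα (c '' {i | ∃ τ, q.1.f i τ ≠ none} ∪ {δ})
    (((fin_supp q.1).image c).union (by simp))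
  have hδb : δ ≤ b1 := hb1' δ (by simp) hδ
  obtain ⟨b, _, hb2, hb3, q2, hq2, hq3, hq4, hq5⟩ := hr2 q hq b1 hb1
  have hξα : ξf b < α := (le_max_right _ _).trans_lt (hcl b hb3)
  have hdisj : ∀ i ∉ Set.Iic i0, ∀ τ τ', (p (ξf b)).1.f i τ ≠ none → q.1.f i τ' = none := by
    intro i hi τ τ' hp1
    by_contra hcon
    have h6 : ∃ ξ' < α, ∃ τ, (p ξ').1.f i τ ≠ none := ⟨ξf b, hξα, τ, hp1⟩
    obtain ⟨h7, h8⟩ := hc i h6
    have h9 : c i ≤ b1 := hb1' _ (Or.inl ⟨i, ⟨τ', hcon⟩, rfl⟩) h7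
    have h10 : i ∈ F := h5 b i ⟨τ, hp1⟩ ⟨c i, (h9.trans hb2).trans_lt (h1 b), h8⟩
    exact hi (hFi0 i h10)
  have hle : ∀ i ∈ Set.Iic i0, Le g i q2.1 (p (ξf b)).1 := fun i hi =>
    (Le_congr_right g (res_mem (T := Set.Iic i0) hi)).1 (hq3 i)
  have hag : ∀ i τ, q2.1.f i τ ≠ none → (p (ξf b)).1.f i τ ≠ none →
      q2.1.f i τ = (p (ξf b)).1.f i τ := by
    intro i τ h6 h7
    by_cases hi : i ∈ Set.Iic i0
    · obtain ⟨v, hv⟩ := Option.ne_none_iff_exists'.1 h7
      rw [hv, (hle i hi).1 τ v hv]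
    · rw [hq5 i hi] at h6
      exact absurd (hdisj i hi τ τ h7) h6
  obtain ⟨u, hu1, hu2, hu3⟩ := union_le hag
    (fun i a m ha x _ v hv _ hn e' _ _ => by
      by_cases hi : i ∈ Set.Iic i0
      · rw [(hle i hi).1 _ v hv] at hn
        exact absurd hn (by simp)
      · rw [hq5 i hi, hdisj i hi _ _ (by rw [hv]; simp)] at ha
        exact absurd ha (by simp))
    (fun i a m ha x hx v hv hv0 hn e' he' => by
      by_cases hi : i ∈ Set.Iic i0
      · exact (hle i hi).2 a m ha x hx v hv hv0 hn e' he'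
      · rw [hq5 i hi, hdisj i hi _ _ (by rw [ha]; simp)] at hv
        exact absurd hv (by simp))
  refine ⟨ξf b, h3 b, (hδb.trans hb2).trans ((h1 b).le.trans (h4 b)), hξα, u, hu1.trans hq2,
    hu2, down_Ln _ _ _ _ hq4 _ hu1, fun i hi => ?_⟩
  rw [hu3, union_eq_left (hp _ i hi), hq5 i (hIic i hi)]

open Classical in
/-- the coordinate `j` of the master condition -/
noncomputable def mastU (g : J → K1 → K1 → Set (Rep J)) (j : J) (e : Tag → Option ℕ)
    (s : Finset K1) (M : ℕ) (α : K1) : Tag → Option ℕ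
  | .co β n => e (.co β n)
  | .bit m x => if e (.bit m x) ≠ none then e (.bit m x) else
      if x ∈ s ∧ m < M then some 0 else none
  | .pr a => if e (.pr a) ≠ none then e (.pr a) else
      if a = α ∧ OKn (g j) (Data g j) then some M else none

theorem mastU_old {j : J} {e : Tag → Option ℕ} {s : Finset K1} {M : ℕ} {α : K1} {τ : Tag}
    (h : e τ ≠ none) : mastU g j e s M α τ = e τ := by
  cases τ with
  | co β n => rfl
  | bit m x => exact if_pos h
  | pr a => exact if_pos h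

theorem mastU_fin (j : J) {e : Tag → Option ℕ} (he : {τ | e τ ≠ none}.Finite)
    (s : Finset K1) (M : ℕ) (α : K1) : {τ | mastU g j e s M α τ ≠ none}.Finite := by
  classical
  refine ((he.union ((Finset.finite_toSet (Finset.range M ×ˢ s)).image
    fun x => Tag.bit x.1 x.2)).union (Set.finite_singleton (Tag.pr α))).subset fun τ hτ => ?_
  by_cases h : e τ ≠ none
  · exact Or.inl (Or.inl h)
  cases τ with
  | co β n => exact absurd hτ h
  | bit m x =>
    left; right
    refine ⟨(m, x), ?_, rfl⟩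
    by_contra hcon
    apply hτ
    show (if e (.bit m x) ≠ none then e (.bit m x) else
      if x ∈ s ∧ m < M then some 0 else none) = none
    rw [if_neg h, if_neg]
    rintro ⟨h1, h2⟩
    exact hcon (by simp [h1, h2])
  | pr a =>
    right
    by_contra hcon
    apply hτ
    show (if e (.pr a) ≠ none then e (.pr a) else
      if a = α ∧ OKn (g j) (Data g j) then some M else none) = none
    rw [if_neg h, if_neg]
    rintro ⟨h1, _⟩
    exact hcon (by rw [h1]; rfl)

theorem star_step {j0 j : J} (hj : j0 < j) (hS : Star g j0 (Set.Iio j)) :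
    Star g j0 (Set.Iic j) := by
  classical
  intro Z hZ p hp β hβ h
  have hpj : ∀ ξ i, j < i → ∀ τ, (p ξ).1.f i τ = none := fun ξ i hi τ =>
    hp ξ i (not_le.2 hi) τ
  obtain ⟨e, he⟩ := exists_root hZ (fun ξ => (p ξ).1.f j) (fun ξ => fin_at (p ξ).1 j)
  -- bounds for the indices
  have hM : ∀ ξ, ∃ M : ℕ, (∀ a m, (p ξ).1.f j (.pr a) = some m → m < M) ∧
      ∀ m y, (p ξ).1.f j (.bit m y) ≠ none → m < M := by
    intro ξ
    obtain ⟨M, hM⟩ := ((fin_at (p ξ).1 j).image fun τ => match τ with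
      | .co _ _ => 0
      | .bit m _ => m
      | .pr a => ((p ξ).1.f j (.pr a)).getD 0).bddAbove
    refine ⟨M + 1, fun a m ha => ?_, fun m y hy => ?_⟩
    · have := hM ⟨Tag.pr a, by rw [Set.mem_ofPred_eq, ha]; simp, rfl⟩
      simp only [ha, Option.getD_some] at this
      omega
    · have := hM ⟨Tag.bit m y, hy, rfl⟩
      simp only at this
      omega
  choose Mf hM1 hM2 using hM
  choose B hB using fun ξ => bounded_finite (lv '' {τ | (p ξ).1.f j τ ≠ none})
    ((fin_at (p ξ).1 j).image lv)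
  obtain ⟨⟨s, M⟩, hs⟩ := press (E := Finset K1 × ℕ)
    (fun a => {x | ∀ y ∈ x.1, y ≤ a})
    (by
      intro a
      refine ((countable_finset a).prod (Set.countable_univ (α := ℕ))).mono fun x hx => ?_
      exact Set.mem_prod.2 ⟨hx, Set.mem_univ _⟩)
    (fun η x => (∀ y ∈ x.1, y < η) ∧ ∃ δ, η < δ ∧ (∀ τ, e τ ≠ none → lv τ < δ) ∧
      ∃ ξ, ξ ∈ Z ∧ δ ≤ ξ ∧ (∀ τ, lv τ < δ → (p ξ).1.f j τ = e τ) ∧ Mf ξ = x.2 ∧
        ∃ p', p' ≤ p ξ ∧ (∀ i, j ≤ i → p'.1.f i = (p ξ).1.f i) ∧
          ∀ a, δ ≤ a → (p ξ).1.f j (.pr a) ≠ none → ∀ y < η, y ∉ x.1 →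
            ∀ e' ∈ g j a y, ¬ CC g j p'.1 e')
    (by
      intro η hη
      obtain ⟨δ, h1, h2, ξ, h3, h4, h5⟩ := he η
      have hDfin : {a | (p ξ).1.f j (.pr a) ≠ none ∧ δ ≤ a}.Finite := by
        refine ((fin_at (p ξ).1 j).preimage (f := fun a => Tag.pr a)
          fun x _ y _ h => by simpa using h).subset fun a ha => ha.1
      obtain ⟨p', h6, h7, B', hB'⟩ := decide_finset (p ξ) j η hDfin.toFinset
        (fun a ha => h1.trans_le (hDfin.mem_toFinset.1 ha).2) (by
          rintro ⟨a, ha⟩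
          exact ((p ξ).2 j a (hDfin.mem_toFinset.1 ha).1).1)
      obtain ⟨b, hb, hb'⟩ := bounded_below hη (B' : Set K1) B'.finite_toSet
      refine ⟨b, hb, (B'.filter fun y => y < η, Mf ξ), fun y hy => ?_, fun y hy => ?_, δ, h1, h2,
        ξ, h3, h4, h5, rfl, p', h6, h7, fun a ha ha' y hy hyn e' he' => ?_⟩
      · have hy' := Finset.mem_filter.1 hy
        exact hb' y hy'.1 hy'.2
      · exact (Finset.mem_filter.1 hy).2
      · refine hB' a (hDfin.mem_toFinset.2 ⟨ha', ha⟩) y hy (fun hyB => hyn ?_) e' he'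
        exact Finset.mem_filter.2 ⟨hyB, hy⟩)
  choose ηf h1 _ h2 δf h3 h4 ξf h5 h6 h7 h8 p' h9 h10 h11 using hs
  have hbξ : ∀ b, b < ξf b := fun b => (h1 b).trans ((h3 b).trans_le (h6 b))
  obtain ⟨α, hα, hcl, r0, hr1, hr2⟩ := hS Set.univ (fun a => ⟨a, trivial, le_rfl⟩)
    (fun b => resP (p' b) (Set.Iio j)) (fun b i hi τ => res_not hi τ)
    (fun b => β (ξf b)) (fun b => (hbξ b).le.trans (hβ _))
    (fun b => max (max (h b) (ξf b)) (B (ξf b)))
  have hcl1 : ∀ b < α, h b < α := fun b hb =>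
    ((le_max_left _ _).trans (le_max_left _ _)).trans_lt (hcl b hb)
  have hcl2 : ∀ b < α, ξf b < α := fun b hb =>
    ((le_max_right _ _).trans (le_max_left _ _)).trans_lt (hcl b hb)
  have hcl3 : ∀ b < α, B (ξf b) < α := fun b hb => (le_max_right _ _).trans_lt (hcl b hb)
  obtain ⟨b0, hb0⟩ := hα.1
  have heq : ∀ b τ, e τ ≠ none → (p (ξf b)).1.f j τ = e τ := fun b τ hτ => h7 b τ (h4 b τ hτ)
  have hefin : {τ | e τ ≠ none}.Finite := by
    refine (fin_at (p (ξf b0)).1 j).subset fun τ hτ => ?_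
    show (p (ξf b0)).1.f j τ ≠ none
    rw [heq b0 τ hτ]; exact hτ
  have heα : ∀ τ, e τ ≠ none → lv τ < α := fun τ hτ =>
    (h4 b0 τ hτ).trans ((h6 b0).trans_lt (hcl2 b0 hb0))
  have hsα : ∀ y ∈ s, y < α := fun y hy =>
    (h2 b0 y hy).trans ((h3 b0).trans ((h6 b0).trans_lt (hcl2 b0 hb0)))
  set U := mastU g j e s M α with hU
  have hUfin : {τ | U τ ≠ none}.Finite := mastU_fin j hefin s M α
  have hrV : ∀ i, Vl g i (setAt r0.1 j U hUfin) := by
    intro i
    by_cases hi : i = j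
    · subst hi
      intro a ha
      rw [setAt_self] at ha
      by_cases hea : e (.pr a) ≠ none
      · exact (p (ξf b0)).2 i a (by rw [heq b0 _ hea]; exact hea)
      · have ha' : (if e (.pr a) ≠ none then e (.pr a) else
          if a = α ∧ OKn (g i) (Data g i) then some M else none) ≠ none := ha
        rw [if_neg hea] at ha'
        by_cases hc : a = α ∧ OKn (g i) (Data g i)
        · exact ⟨hc.2, j0, hj⟩
        · rw [if_neg hc] at ha'
          exact absurd rfl ha'
    · exact Vl_congr g (setAt_ne hi) (r0.2 i)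
  have hr0j : ∀ τ, r0.1.f j τ = none := fun τ => hr1 j (fun h => absurd h (lt_irrefl j)) τ
  obtain ⟨rC, hrC⟩ : ∃ rC : Cd g, rC.1 = setAt r0.1 j U hUfin := ⟨⟨_, hrV⟩, rfl⟩
  have hrr0 : rC ≤ r0 := by
    intro i
    rw [hrC]
    by_cases hi : i = j
    · subst hi
      exact Le_of_none g hr0j
    · exact Le_of_eq g (setAt_ne (hu := hUfin) hi)
  refine ⟨α, hα, hcl1, rC, fun i hi τ => ?_, ?_⟩
  · have hne : i ≠ j := fun h => hi (by rw [h]; exact le_rfl)
    rw [hrC, setAt_ne hne]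
    exact hr1 i (fun h => hi (le_of_lt h)) τ
  intro q hq δ hδ
  have hqU : ∀ τ v, U τ = some v → q.1.f j τ = some v := by
    intro τ v hv
    refine (hq j).1 τ v ?_
    rw [hrC, setAt_self, hv]
  have hqe : ∀ τ, e τ ≠ none → q.1.f j τ = e τ := by
    intro τ hτ
    obtain ⟨v, hv⟩ := Option.ne_none_iff_exists'.1 hτ
    rw [hv]
    exact hqU τ v (by rw [hU, mastU_old hτ, hv])
  have hqU2 : ∀ a m, U (.pr a) = some m → ∀ x < a, ∀ v, q.1.f j (.bit m x) = some v → v ≠ 0 →
      U (.bit m x) = none → ∀ e' ∈ g j a x, ¬ CC g j q.1 e' := by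
    intro a m ha x hx v hv hv0 hn e' he'
    refine (hq j).2 a m ?_ x hx v hv hv0 ?_ e' he'
    · rw [hrC, setAt_self, ha]
    · rw [hrC, setAt_self, hn]
  -- decide below `j`
  have hDfin : {a | q.1.f j (.pr a) ≠ none ∧ α < a}.Finite := by
    refine ((fin_at q.1 j).preimage (f := fun a => Tag.pr a)
      fun x _ y _ h => by simpa using h).subset fun a ha => ha.1
  obtain ⟨q1, hq1, hq1j, B1, hB1⟩ := decide_finset q j α hDfin.toFinset
    (fun a ha => (hDfin.mem_toFinset.1 ha).2) (by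
      rintro ⟨a, ha⟩
      exact (q.2 j a (hDfin.mem_toFinset.1 ha).1).1)
  obtain ⟨b1, hb1, hb1'⟩ := bounded_below hα
    (lv '' {τ | q.1.f j τ ≠ none} ∪ ((B1 : Set K1) ∪ {δ}))
    (((fin_at q.1 j).image lv).union (B1.finite_toSet.union (by simp)))
  have hδb : δ ≤ b1 := hb1' δ (Or.inr (Or.inr rfl)) hδ
  obtain ⟨b, _, hb2, hb3, q2, hq2, hq3, hq4, hq5⟩ := hr2 q1 (hq1.trans (hq.trans hrr0)) b1 hb1
  have hξα : ξf b < α := hcl2 b hb3
  have hq2j : q2.1.f j = q.1.f j := by
    rw [hq5 j (fun h => absurd h (lt_irrefl j)), hq1j j le_rfl]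
  have hq2i : ∀ i, j < i → q2.1.f i = q.1.f i := fun i hi => by
    rw [hq5 i (fun h => absurd h (not_lt.2 hi.le)), hq1j i hi.le]
  have hlep' : ∀ i, i < j → Le g i q2.1 (p' b).1 := fun i hi =>
    (Le_congr_right g (res_mem (T := Set.Iio j) hi)).1 (hq3 i)
  have hle : ∀ i, i < j → Le g i q2.1 (p (ξf b)).1 := fun i hi =>
    Le_trans g (fun i' hi' => hlep' i' (hi'.trans hi)) (hlep' i hi) (h9 b i)
  have hbδ : b < δf b := (h1 b).trans (h3 b)
  have hqlv : ∀ τ, q.1.f j τ ≠ none → lv τ < α → lv τ ≤ b1 := fun τ hτ h12 =>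
    hb1' _ (Or.inl ⟨τ, hτ, rfl⟩) h12
  have hplv : ∀ τ, (p (ξf b)).1.f j τ ≠ none → lv τ < α := fun τ hτ =>
    (hB (ξf b) _ ⟨τ, hτ, rfl⟩).trans (hcl3 b hb3)
  -- places which are in both conditions
  have hboth : ∀ τ, q.1.f j τ ≠ none → (p (ξf b)).1.f j τ ≠ none → lv τ < δf b := by
    intro τ hq' hp'
    exact ((hqlv τ hq' (hplv τ hp')).trans hb2).trans_lt hbδ
  have hag : ∀ i τ, q2.1.f i τ ≠ none → (p (ξf b)).1.f i τ ≠ none →
      q2.1.f i τ = (p (ξf b)).1.f i τ := by
    intro i τ h12 h13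
    rcases lt_trichotomy i j with hi | hi | hi
    · obtain ⟨v, hv⟩ := Option.ne_none_iff_exists'.1 h13
      rw [hv, (hle i hi).1 τ v hv]
    · subst hi
      rw [hq2j] at h12 ⊢
      have hl := hboth τ h12 h13
      rw [h7 b τ hl] at h13 ⊢
      exact hqe τ h13
    · exact absurd (hpj (ξf b) i hi τ) h13
  obtain ⟨u, hu1, hu2, hu3⟩ := union_le hag
    (fun i a m ha x hx v hv hv0 hn e' he' hc => by
      rcases lt_trichotomy i j with hi | hi | hi
      · rw [(hle i hi).1 _ v hv] at hn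
        exact absurd hn (by simp)
      · subst hi
        rw [hq2j] at ha hn
        have hxδ : δf b ≤ x := by
          by_contra hlt
          have hl : lv (Tag.bit m x) < δf b := not_le.1 hlt
          have h12 := h7 b _ hl
          rw [hv] at h12
          have h13 : e (.bit m x) ≠ none := by rw [← h12]; simp
          rw [hqe _ h13, ← h12] at hn
          exact absurd hn (by simp)
        have hxα : x < α := hplv (.bit m x) (by rw [hv]; simp)
        have hmM : m < M := by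
          have := hM2 (ξf b) m x (by rw [hv]; simp)
          rwa [h8 b] at this
        have hb1x : b1 < x := hb2.trans_lt (hbδ.trans_le hxδ)
        rcases lt_trichotomy a α with haα | haα | haα
        · have h14 : a ≤ b1 := hqlv (.pr a) (by rw [ha]; simp) haα
          exact absurd (hx.trans_le h14) (not_lt.2 hb1x.le)
        · subst haα
          have hOK := (q.2 i a (by rw [ha]; simp)).1
          have hea : ¬ e (.pr a) ≠ none := fun h15 => absurd (heα _ h15) (lt_irrefl _)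
          have hUa : U (.pr a) = some M := by
            show (if e (.pr a) ≠ none then e (.pr a) else
              if a = a ∧ OKn (g i) (Data g i) then some M else none) = some M
            rw [if_neg hea, if_pos ⟨rfl, hOK⟩]
          have h16 := hqU _ _ hUa
          rw [ha] at h16
          have h17 : m = M := Option.some.inj h16
          omega
        · have h18 : x ∉ B1 := fun h19 =>
            absurd (hb1' x (Or.inr (Or.inl h19)) hxα) (not_le.2 hb1x)
          exact hB1 a (hDfin.mem_toFinset.2 ⟨by rw [ha]; simp, haα⟩) x hxα h18 e' he'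
            (CC_of_le hq2 hc)
      · rw [hpj (ξf b) i hi] at hv
        exact absurd hv (by simp))
    (fun i a m ha x hx v hv hv0 hn e' he' hc => by
      rcases lt_trichotomy i j with hi | hi | hi
      · exact (hle i hi).2 a m ha x hx v hv hv0 hn e' he' hc
      · subst hi
        rw [hq2j] at hv
        have haα : a < α := hplv (.pr a) (by rw [ha]; simp)
        have hmM : m < M := by
          have := hM1 (ξf b) a m ha
          rwa [h8 b] at this
        have hxb1 : x ≤ b1 := hqlv (.bit m x) (by rw [hv]; simp) (hx.trans haα)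
        have hebit : e (.bit m x) = none := by
          by_contra h12
          rw [heq b _ h12] at hn
          exact h12 hn
        by_cases haδ : δf b ≤ a
        · -- a new promise
          by_cases hxs : x ∈ s
          · have hUx : U (.bit m x) = some 0 := by
              show (if e (.bit m x) ≠ none then e (.bit m x) else
                if x ∈ s ∧ m < M then some 0 else none) = some 0
              rw [if_neg (by rw [hebit]; simp), if_pos ⟨hxs, hmM⟩]
            have h16 := hqU _ _ hUx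
            rw [hv] at h16
            exact hv0 (Option.some.inj h16)
          · exact h11 b a haδ (by rw [ha]; simp) x ((hxb1.trans hb2).trans_lt (h1 b)) hxs e' he'
              (CC_mono g (fun i' hi' => hlep' i' hi') hc)
        · -- an old promise
          have hl : lv (Tag.pr a) < δf b := not_le.1 haδ
          have h12 := h7 b _ hl
          rw [ha] at h12
          have h13 : e (.pr a) ≠ none := by rw [← h12]; simp
          have hUa : U (.pr a) = some m := by rw [hU, mastU_old h13, ← h12]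
          by_cases hUx : U (.bit m x) = none
          · exact hqU2 a m hUa x hx v hv hv0 hUx e' he' (CC_of_le (hq2.trans hq1) hc)
          · have hUx' : (if e (.bit m x) ≠ none then e (.bit m x) else
              if x ∈ s ∧ m < M then some 0 else none) ≠ none := hUx
            rw [if_neg (by rw [hebit]; simp)] at hUx'
            by_cases hcc : x ∈ s ∧ m < M
            · have hUx2 : U (.bit m x) = some 0 := by
                show (if e (.bit m x) ≠ none then e (.bit m x) else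
                  if x ∈ s ∧ m < M then some 0 else none) = some 0
                rw [if_neg (by rw [hebit]; simp), if_pos hcc]
              have h16 := hqU _ _ hUx2
              rw [hv] at h16
              exact hv0 (Option.some.inj h16)
            · rw [if_neg hcc] at hUx'
              exact hUx' rfl
      · rw [hpj (ξf b) i hi] at ha
        exact absurd ha (by simp))
  refine ⟨ξf b, h5 b, (hδb.trans hb2).trans (hbξ b).le, hξα, u, hu1.trans (hq2.trans hq1),
    hu2, down_Ln _ _ _ _ hq4 _ hu1, fun i hi => ?_⟩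
  rw [hu3, union_eq_left (hp _ i hi), hq2i i (not_le.1 hi)]

theorem star_Iic {j0 : J} (hj0 : ∀ i, j0 ≤ i) (j : J) : Star g j0 (Set.Iic j) := by
  induction j using WellFoundedLT.induction with
  | ind j IH =>
    rcases (hj0 j).eq_or_lt with h | h
    · rw [← h]; exact star_base hj0
    · exact star_step h (star_limit (isLowerSet_Iio j) h fun i hi => IH i hi)

theorem star_univ {j0 : J} (hj0 : ∀ i, j0 ≤ i) : Star g j0 Set.univ :=
  star_limit isLowerSet_univ trivial fun i _ => star_Iic hj0 i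

end Pool.Agent.W876.Prox.Hit
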