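import Mathlib
import Pool.Agent.W876.Prox.Defs
import Pool.Agent.W876.Prox.Star

/-!
# The two halves of the theorem
-/

namespace Pool.Agent.W876.Prox.Main

open Cardinal Pool.Agent.Helper126.Lam.Forc Pool.Agent.Helper761.Om Pool.Agent.W876.Prox.Poset
  Pool.Agent.W876.Prox.Omega Pool.Agent.W876.Prox.Hit Pool.Agent.W876.Prox.Defs

set_option linter.unusedSectionVars false

variable {J : Type} {g : J → K1 → K1 → Set (Rep J)} [LinearOrder J] [WellFoundedLT J]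

theorem lim_of {α : K1} (h : Order.IsSuccLimit α) : Lim α := by
  refine ⟨?_, fun a ha => ?_⟩
  · have h1 := h.1
    rw [not_isMin_iff] at h1
    exact h1
  · by_contra hcon
    push Not at hcon
    exact h.2 a ⟨ha, fun b hab hbα => absurd (hcon b hab) (not_le.2 hbα)⟩

theorem of_lim {α : K1} (h : Lim α) : Order.IsSuccLimit α := by
  refine ⟨?_, fun a ha => ?_⟩
  · rw [not_isMin_iff]
    exact h.1
  · obtain ⟨b, hb1, hb2⟩ := h.2 a ha.1
    exact ha.2 hb1 hb2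

/-! ### The countable chain condition -/

theorem exists_injection {Y : Type} (hY : ¬ Countable Y) : ∃ f : K1 → Y, Function.Injective f := by
  have h : #K1 ≤ #Y := by
    rw [mk_K1, ← succ_aleph0]
    rw [← mk_le_aleph0_iff, not_le] at hY
    exact Order.succ_le_of_lt hY
  obtain ⟨f⟩ := h
  exact ⟨f, f.injective⟩

theorem cond_ccc {j0 : J} (hj0 : ∀ i, j0 ≤ i) {Y : Type} (f : Y → Cd g) (hY : ¬ Countable Y) :
    ∃ y y', y ≠ y' ∧ ∃ s, s ≤ f y ∧ s ≤ f y' := by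
  obtain ⟨ι, hι⟩ := exists_injection hY
  obtain ⟨α, hα, _, r, _, hr⟩ := star_univ (g := g) hj0 Set.univ (fun a => ⟨a, trivial, le_rfl⟩)
    (fun ξ => f (ι ξ)) (fun _ _ hi => absurd trivial hi) id (fun _ => le_rfl) id
  obtain ⟨a, ha⟩ := hα.1
  obtain ⟨ξ, _, _, h2, q, hq1, hq2, _⟩ := hr r le_rfl a ha
  obtain ⟨b, hb1, hb2⟩ := hα.2 ξ h2
  obtain ⟨ξ', _, h4, _, q', hq1', hq2', _⟩ := hr q hq1 b hb2
  exact ⟨ι ξ, ι ξ', fun h => absurd (hι h) (hb1.trans_le h4).ne, q', hq1'.trans hq2, hq2'⟩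

/-- inside every set there is a countable set such that each member of the set is compatible
with one of them -/
theorem exists_antichain {j0 : J} (hj0 : ∀ i, j0 ≤ i) (D : Set (Cd g)) :
    ∃ A ⊆ D, A.Countable ∧ ∀ p ∈ D, ∃ a ∈ A, ∃ s, s ≤ a ∧ s ≤ p := by
  obtain ⟨A, hA⟩ := zorn_subset {A : Set (Cd g) | A ⊆ D ∧ ∀ a ∈ A, ∀ b ∈ A,
      (∃ s, s ≤ a ∧ s ≤ b) → a = b}
    (by
      intro c hc hchain
      refine ⟨⋃₀ c, ⟨Set.sUnion_subset fun s hs => (hc hs).1, ?_⟩,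
        fun s hs => Set.subset_sUnion_of_mem hs⟩
      rintro a ⟨s, hs, ha⟩ b ⟨t, ht, hb⟩ hab
      rcases hchain.total hs ht with h | h
      · exact (hc ht).2 a (h ha) b hb hab
      · exact (hc hs).2 a ha b (h hb) hab)
  refine ⟨A, hA.prop.1, ?_, ?_⟩
  · by_contra hcount
    have hcount' : ¬ Countable A := hcount
    obtain ⟨y, y', hne, h⟩ := cond_ccc hj0 (fun a : A => a.1) hcount'
    exact hne (Subtype.ext (hA.prop.2 y.1 y.2 y'.1 y'.2 h))
  · intro p hp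
    by_contra hcon
    push Not at hcon
    have hpA : p ∉ A := fun hpA => hcon p hpA p le_rfl le_rfl
    have hmem : insert p A ∈ {A : Set (Cd g) | A ⊆ D ∧ ∀ a ∈ A, ∀ b ∈ A,
        (∃ s, s ≤ a ∧ s ≤ b) → a = b} := by
      refine ⟨Set.insert_subset hp hA.prop.1, ?_⟩
      rintro a (rfl | ha) b (rfl | hb) ⟨s, h1, h2⟩
      · rfl
      · exact absurd h1 (hcon b hb s h2)
      · exact absurd h2 (hcon a ha s h1)
      · exact hA.prop.2 a ha b hb ⟨s, h1, h2⟩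
    exact hpA (hA.le_of_ge hmem (Set.subset_insert p A) (Set.mem_insert p A))

/-- the supports of at most `κ` conditions are bounded -/
theorem exists_below {κ : Cardinal.{0}} (hκ : ℵ₀ ≤ κ)
    (hcof : ∀ S : Set J, #S ≤ κ → ∃ b, ∀ s ∈ S, s < b)
    {A : Set (Cd g)} (hA : #A ≤ κ) : ∃ b : J, ∀ a ∈ A, ∀ b' ≥ b, Below a.1 b' := by
  obtain ⟨b, hb⟩ := hcof (⋃ a : A, Prod.fst '' {x : J × Tag | a.1.1.f x.1 x.2 ≠ none}) (by
    refine (mk_iUnion_le_sum_mk).trans ?_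
    refine (Cardinal.sum_le_sum _ (fun _ => ℵ₀) fun a => ?_).trans ?_
    · exact Cardinal.le_aleph0_iff_set_countable.2 ((a.1.1.fin.image _).countable)
    · rw [Cardinal.sum_const']
      exact (mul_le_mul' hA hκ).trans (mul_eq_self hκ).le)
  refine ⟨b, fun a ha b' hb' i hi τ => ?_⟩
  by_contra hcon
  have := hb i (Set.mem_iUnion.2 ⟨⟨a, ha⟩, (i, τ), hcon, rfl⟩)
  exact absurd (hb'.trans hi) (not_le.2 this)

/-! ### The generic ladder system -/

/-- the first `n` elements of the ladder at `α` can be decided -/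
theorem decide_ladder (q : Cd g) (j0 : J) (α : K1) (n0 : ℕ) :
    ∃ q' ≤ q, ∀ n < n0, q'.1.f j0 (.co α n) ≠ none := by
  induction n0 with
  | zero => exact ⟨q, le_rfl, fun n hn => absurd hn (Nat.not_lt_zero n)⟩
  | succ n0 ih =>
    obtain ⟨q', h1, h2⟩ := ih
    by_cases hn : q'.1.f j0 (.co α n0) = none
    · obtain ⟨q2, h3, h4, h5, _⟩ := add_tag q' j0 (.co α n0) hn 0 (by simp) (by simp)
      refine ⟨q2, h3.trans h1, fun n hn' => ?_⟩
      rcases Nat.lt_succ_iff_lt_or_eq.1 hn' with h | h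
      · rw [h5 _ (by simp; omega)]
        exact h2 n h
      · rw [h, h4]; simp
    · refine ⟨q', h1, fun n hn' => ?_⟩
      rcases Nat.lt_succ_iff_lt_or_eq.1 hn' with h | h
      · exact h2 n h
      · rw [h]; exact hn

theorem no_limit {j0 : J} {α η : K1} (hα : Lim α) (hη : η < α) (q : Cd g) :
    q ∉ IsLimitPoint (Ln g j0 α) η := by
  classical
  intro hq
  obtain ⟨n0, hn0⟩ := (lad_spec hα).2.1 η hη
  obtain ⟨q', hq', hdec⟩ := decide_ladder q j0 α n0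
  let el : ℕ → K1 := fun n => lad α n ((q'.1.f j0 (.co α n)).getD 0)
  have hmin : ∃ a, a < η := by
    have := hq.1
    rw [mem_fground, not_isMin_iff] at this
    exact this
  obtain ⟨a0, ha0⟩ := hmin
  -- a bound for the elements below `η`
  have hb : ∃ ζ < η, ∀ n < n0, el n < η → el n ≤ ζ := by
    have : ∀ k : ℕ, ∃ ζ < η, ∀ n < k, el n < η → el n ≤ ζ := by
      intro k
      induction k with
      | zero => exact ⟨a0, ha0, fun n hn => absurd hn (Nat.not_lt_zero n)⟩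
      | succ k ih =>
        obtain ⟨ζ, h1, h2⟩ := ih
        by_cases hk : el k < η
        · refine ⟨max ζ (el k), max_lt h1 hk, fun n hn hn' => ?_⟩
          rcases Nat.lt_succ_iff_lt_or_eq.1 hn with h | h
          · exact (h2 n h hn').trans (le_max_left _ _)
          · rw [h]; exact le_max_right _ _
        · refine ⟨ζ, h1, fun n hn hn' => ?_⟩
          rcases Nat.lt_succ_iff_lt_or_eq.1 hn with h | h
          · exact h2 n h hn'
          · rw [h] at hn'; exact absurd hn' hk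
    exact this n0
  obtain ⟨ζ, hζ, hζ'⟩ := hb
  obtain ⟨r, hr, x, hx1, hx2⟩ := mem_fex.1 (hq.2 ζ hζ) q' hq'
  obtain ⟨s, hs, n, k, h1, h2⟩ := exists_of_meets (down_Ln j0 α x) hx2
  have hx1' : ζ < x ∧ x < η := hx1
  have hn : n < n0 := by
    by_contra hcon
    have := hn0 n (not_lt.1 hcon) k
    rw [h2] at this
    exact absurd hx1'.2 (not_lt.2 this)
  obtain ⟨v, hv⟩ := Option.ne_none_iff_exists'.1 (hdec n hn)
  have h3 := ((hs.trans hr) j0).1 _ _ hv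
  rw [h1] at h3
  have hkv : k = v := Option.some.inj h3
  have hel : el n = x := by
    show lad α n ((q'.1.f j0 (.co α n)).getD 0) = x
    rw [hv, ← h2, hkv]; rfl
  have := hζ' n hn (by rw [hel]; exact hx1'.2)
  rw [hel] at this
  exact absurd hx1'.1 (not_lt.2 this)

theorem of_meets_Ln {j0 : J} {α x : K1} (hα : Lim α) {q : Cd g} (h : q ∈ meets (Ln g j0 α x)) :
    x < α := by
  obtain ⟨s, _, n, k, _, h2⟩ := exists_of_meets (down_Ln j0 α x) h
  rw [← h2]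
  exact (lad_spec hα).1 n k

theorem isSeq_Ln {j0 : J} (Rel : K1 → K1 → (K1 → Set (Cd g)) → (K1 → Set (Cd g)) → Set (Cd g))
    (Ω : Set K1) (q : Cd g) : q ∈ IsSeq Rel Ω (Ln g j0) := by
  intro α hα'
  have hα := lim_of hα'
  refine ⟨⟨fun x => ?_, fun ζ hζ => ?_, fun η => ?_⟩, fun η => ?_⟩
  · exact mem_fimp.2 fun r _ hr => ⟨r, le_rfl, of_meets_Ln hα hr⟩
  · refine mem_fex.2 fun r _ => ?_
    obtain ⟨n, hn⟩ := exists_fresh r.1 j0 α
    obtain ⟨c, hc, hlad⟩ := (lad_spec hα).2.2 n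
    obtain ⟨x, hx1, hx2⟩ := hα.2 (max ζ c) (max_lt hζ hc)
    obtain ⟨k, hk⟩ := hlad x ((le_max_right _ _).trans hx1.le) hx2
    obtain ⟨r', h1, h2, _⟩ := add_tag r j0 (.co α n) hn k (by simp) (by simp)
    exact ⟨r', h1, x, ⟨(le_max_left _ _).trans_lt hx1, hx2⟩, meets_of_mem ⟨n, k, h2, hk⟩⟩
  · exact mem_fimp.2 fun r _ hr => absurd hr.2 (no_limit hα hr.1 r)
  · exact mem_fimp.2 fun r _ hr => absurd hr.2 (no_limit hα hr.1 r)

theorem exists_bot : ∃ i : K1, idx i = 0 ∧ ∀ a, i ≤ a := by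
  have h0 : (0 : Ordinal.{0}) < Ordinal.type (α := K1) (· < ·) := by
    exact pos_iff_ne_zero.2 (Ordinal.type_ne_zero_iff_nonempty.2 inferInstance)
  refine ⟨Ordinal.enum (α := K1) (· < ·) ⟨0, h0⟩, Ordinal.typein_enum _ h0, fun a => ?_⟩
  by_contra hcon
  have h1 : Ordinal.typein (α := K1) (· < ·) a <
      Ordinal.typein (α := K1) (· < ·) (Ordinal.enum (α := K1) (· < ·) ⟨0, h0⟩) :=
    (Ordinal.typein_lt_typein (α := K1) (· < ·)).2 (not_le.1 hcon)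
  rw [Ordinal.typein_enum] at h1
  exact absurd h1 (not_lt.2 zero_le)

theorem proxy_one {j0 : J} (hj0 : ∀ i, j0 ≤ i)
    (Rel : K1 → K1 → (K1 → Set (Cd g)) → (K1 → Set (Cd g)) → Set (Cd g))
    (Ω : Set K1) (p : Cd g) : p ∈ Proxy Rel Ω 1 := by
  refine mem_fex.2 fun p0 _ => ⟨p0, le_rfl, Ln g j0, isSeq_Ln Rel Ω p0, fun B => ?_⟩
  refine mem_fimp.2 fun q hq hB => ⟨q, le_rfl, fun E => mem_fimp.2 fun q1 hq1 hE =>
    ⟨q1, le_rfl, mem_fex.2 fun q2 hq2 => ?_⟩⟩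
  obtain ⟨i0, hi0, hi0'⟩ := exists_bot
  have hB0 : q ∈ IsCofinalSet (B i0) := hB i0 (by rw [hi0]; exact one_pos)
  choose pf hp1 β hβ1 hβ2 using fun ξ => mem_fex.1 (hB0 ξ) q2 (hq2.trans hq1)
  choose A hA1 hA2 hA3 using fun ξ => exists_antichain hj0
    {a : Cd g | a ≤ q2 ∧ ∃ x, ξ < x ∧ a ∈ meets (E x)}
  have hx : ∀ ξ, ∃ y : Cd g → K1, ∀ a ∈ A ξ, ξ < y a ∧ a ∈ meets (E (y a)) := by
    intro ξ
    have : ∀ a : Cd g, ∃ x, a ∈ A ξ → ξ < x ∧ a ∈ meets (E x) := by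
      intro a
      by_cases ha : a ∈ A ξ
      · obtain ⟨_, x, h1, h2⟩ := hA1 ξ ha
        exact ⟨x, fun _ => ⟨h1, h2⟩⟩
      · exact ⟨ξ, fun h => absurd h ha⟩
    choose y hy using this
    exact ⟨y, fun a ha => hy a ha⟩
  choose y hy using hx
  choose h hh using fun ξ => bounded (y ξ '' A ξ) ((hA2 ξ).image _)
  obtain ⟨α, hα, hcl, r, _, hr⟩ := star_univ (g := g) hj0 Set.univ
    (fun a => ⟨a, trivial, le_rfl⟩) pf (fun _ _ hi => absurd trivial hi) β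
    (fun ξ => (show ξ < β ξ from hβ1 ξ).le) h
  obtain ⟨a0, ha0⟩ := hα.1
  obtain ⟨ξ0, _, _, _, q3, hq3, hq3', _⟩ := hr r le_rfl a0 ha0
  have h3q2 : q3 ≤ q2 := hq3'.trans (hp1 ξ0)
  -- `α` belongs to the club
  have hlim : q3 ∈ IsLimitPoint E α := by
    refine ⟨?_, fun ζ hζ => mem_fex.2 fun q4 hq4 => ?_⟩
    · rw [mem_fground, not_isMin_iff]; exact hα.1
    · obtain ⟨r1, hr1, x, hx1, hx2⟩ :=
        mem_fex.1 (hE.1 ζ) q4 (hq4.trans (h3q2.trans hq2))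
      obtain ⟨a, ha, s, hs1, hs2⟩ := hA3 ζ r1 ⟨hr1.trans (hq4.trans h3q2), x, hx1, hx2⟩
      obtain ⟨h4, h5⟩ := hy ζ a ha
      exact ⟨s, hs2.trans hr1, y ζ a, ⟨h4, (hh ζ _ ⟨a, ha, rfl⟩).trans (hcl ζ hζ)⟩,
        down_meets _ _ h5 s hs1⟩
  obtain ⟨q4, hq4, hq4'⟩ := mem_fimp.1 (hE.2 α) q3 (h3q2.trans hq2) hlim
  refine ⟨q4, hq4.trans h3q2, α, of_lim hα, hq4', fun i hi hi1 ζ hζ => mem_fex.2 fun q5 hq5 => ?_⟩
  have hii : i = i0 := by
    have h6 : idx i = 0 := Order.lt_one_iff.1 hi1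
    have h7 : Ordinal.typein (α := K1) (· < ·) i = Ordinal.typein (α := K1) (· < ·) i0 := by
      show idx i = idx i0
      rw [h6, hi0]
    exact Ordinal.typein_injective (α := K1) (· < ·) h7
  obtain ⟨ξ, _, h8, _, q6, h9, h10, h11, _⟩ := hr q5 (hq5.trans (hq4.trans hq3)) ζ hζ
  have h12 : q6 ∈ meets (Ln g j0 α (β ξ)) := meets_of_mem h11
  have h13 : β ξ < α := of_meets_Ln hα h12
  refine ⟨q6, h9, β ξ, ⟨h8.trans_lt (hβ1 ξ), h13⟩, ⟨h12, fun u _ hu => ?_⟩, ?_⟩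
  · exact no_limit hα h13 u hu.2
  · rw [hii]
    exact down_meets _ _ (hβ2 ξ) q6 h10

end Pool.Agent.W876.Prox.Main
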