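import Mathlib
import Pool.Agent.W876.Prox.Main

/-!
# Bookkeeping and preservation of cardinals
-/

namespace Pool.Agent.W876.Prox.Book

open Cardinal Pool.Agent.Helper126.Lam.Forc Pool.Agent.W876.Prox.Poset
  Pool.Agent.W876.Prox.Omega Pool.Agent.W876.Prox.Main

set_option linter.unusedSectionVars false

theorem mk_arrow_le {A X : Type} {κ : Cardinal.{0}} (hκ : ℵ₀ ≤ κ) (hA : #A ≤ κ)
    (hX : #X ≤ 2 ^ κ) : #(A → X) ≤ 2 ^ κ := by
  rw [← power_def]
  calc #X ^ #A ≤ (2 ^ κ) ^ #A := power_le_power_right hX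
    _ = 2 ^ (κ * #A) := (power_mul).symm
    _ ≤ 2 ^ κ := power_le_power_left two_ne_zero ((mul_le_mul' le_rfl hA).trans
        (mul_eq_self hκ).le)

theorem mk_tag_le {lam : Cardinal.{0}} (hlam : ℵ_ 1 ≤ lam) : #Tag ≤ lam := by
  have h0 : ℵ₀ ≤ lam := (aleph0_le_aleph 1).trans hlam
  let f : Tag → ((K1 × ℕ) ⊕ (ℕ × K1)) ⊕ K1 := fun τ => match τ with
    | .co x n => Sum.inl (Sum.inl (x, n))
    | .bit m x => Sum.inl (Sum.inr (m, x))
    | .pr x => Sum.inr x
  have hf : Function.Injective f := by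
    intro τ τ' h
    cases τ <;> cases τ' <;> simp_all [f]
  refine (mk_le_of_injective hf).trans ?_
  have hK : #K1 ≤ lam := by rw [mk_K1]; exact hlam
  have h1 : #(K1 × ℕ) ≤ lam := by
    rw [mk_prod, lift_id, lift_id, mk_nat]
    exact (mul_le_mul' hK h0).trans (mul_eq_self h0).le
  have h2 : #(ℕ × K1) ≤ lam := by
    rw [mk_prod, lift_id, lift_id, mk_nat]
    exact (mul_le_mul' h0 hK).trans (mul_eq_self h0).le
  simp only [mk_sum, lift_id]
  have h3 : lam + lam = lam := add_eq_self h0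
  calc #(K1 × ℕ) + #(ℕ × K1) + #K1 ≤ (lam + lam) + lam :=
        add_le_add (add_le_add h1 h2) hK
    _ = lam := by rw [h3, h3]

theorem mk_rep_le {J : Type} {lam : Cardinal.{0}} (hlam : ℵ_ 1 ≤ lam)
    (hJ : #J ≤ lam) : #(Rep J) ≤ lam := by
  classical
  have h0 : ℵ₀ ≤ lam := (aleph0_le_aleph 1).trans hlam
  have hfin : ∀ r : Rep J, {x : (J × Tag) × ℕ | r.f x.1.1 x.1.2 = some x.2}.Finite := by
    intro r
    refine Set.Finite.of_finite_image (f := Prod.fst) (r.fin.subset ?_) ?_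
    · rintro _ ⟨x, hx, rfl⟩
      show r.f x.1.1 x.1.2 ≠ none
      rw [hx]; simp
    · rintro ⟨x, v⟩ hx ⟨y, w⟩ hy hxy
      have hxy' : x = y := hxy
      subst hxy'
      have h1 : r.f x.1 x.2 = some v := hx
      have h2 : r.f x.1 x.2 = some w := hy
      rw [h1] at h2
      rw [Option.some.inj h2]
  have hinj : Function.Injective fun r : Rep J => (hfin r).toFinset := by
    intro r r' h
    have h1 : ∀ i τ v, r.f i τ = some v ↔ r'.f i τ = some v := by
      intro i τ v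
      have := congrArg (fun S => ((i, τ), v) ∈ S) h
      simpa using this
    ext1
    funext i τ
    cases hr : r.f i τ with
    | some v => exact ((h1 i τ v).1 hr).symm
    | none =>
      cases hr' : r'.f i τ with
      | some v =>
        rw [← h1] at hr'
        rw [hr] at hr'
        exact absurd hr' (by simp)
      | none => rfl
  refine (mk_le_of_injective hinj).trans ?_
  have hX : #((J × Tag) × ℕ) ≤ lam := by
    simp only [mk_prod, lift_id, mk_nat]
    exact (mul_le_mul' ((mul_le_mul' hJ (mk_tag_le hlam)).trans (mul_eq_self h0).le) h0).trans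
      (mul_eq_self h0).le
  rcases finite_or_infinite ((J × Tag) × ℕ) with h | h
  · have : Finite (Finset ((J × Tag) × ℕ)) := inferInstance
    exact ((mk_lt_aleph0).le).trans h0
  · rw [mk_finset_of_infinite]; exact hX

/-- countable sets are enumerated -/
theorem exists_enum {X : Type} {S : Set X} (hS : S.Countable) :
    ∃ h : ℕ → Option X, ∀ x, x ∈ S ↔ ∃ n, h n = some x := by
  by_cases hne : S.Nonempty
  · obtain ⟨f, rfl⟩ := hS.exists_eq_range hne
    refine ⟨fun n => some (f n), fun x => ?_⟩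
    simp
  · rw [Set.not_nonempty_iff_eq_empty] at hne
    subst hne
    exact ⟨fun _ => none, by simp⟩

/-- the length of the iteration -/
abbrev Len : Type := (2 ^ ℵ_ 1 : Cardinal.{0}).ord.ToType

theorem mk_Len : #Len = 2 ^ ℵ_ 1 := by rw [mk_toType, card_ord]

theorem len_cof (S : Set Len) (hS : #S ≤ ℵ_ 1) : ∃ b, ∀ s ∈ S, s < b := by
  by_contra hcon
  push Not at hcon
  have h1 : IsCofinal S := fun b => by
    obtain ⟨s, hs, hb⟩ := hcon b
    exact ⟨s, hs, hb⟩
  have h2 := Order.cof_le h1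
  rw [Ordinal.cof_toType] at h2
  exact absurd (h2.trans hS) (not_le.2 (lt_cof_ord_power (aleph0_le_aleph 1)
    (by exact_mod_cast Nat.one_lt_two)))

theorem len_Iic (b : Len) : #(Set.Iic b) < #Len := by
  have h1 : #(Set.Iio b) < #Len := Cardinal.mk_Iio_lt b (by simp)
  have h0 : ℵ₀ ≤ #Len := by
    rw [mk_Len]
    exact (aleph0_le_aleph 1).trans (cantor _).le
  rw [← Set.Iio_insert]
  refine (mk_insert_le).trans_lt ?_
  exact add_lt_of_lt h0 h1 (one_lt_aleph0.trans_le h0)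

/-- the bookkeeping function -/
theorem exists_book : ∃ g : Len → K1 → K1 → Set (Rep Len),
    ∀ N : K1 → K1 → Set (Rep Len), (∀ α ξ, (N α ξ).Countable) → ∀ b, ∃ j, b < j ∧ g j = N := by
  have h1 : ℵ₀ ≤ ℵ_ 1 := aleph0_le_aleph 1
  have hlam : ℵ_ 1 ≤ 2 ^ ℵ_ 1 := (cantor _).le
  have h0 : ℵ₀ ≤ 2 ^ ℵ_ 1 := h1.trans hlam
  have hR : #(Rep Len) ≤ 2 ^ ℵ_ 1 := mk_rep_le hlam mk_Len.le
  have hO : #(Option (Rep Len)) ≤ 2 ^ ℵ_ 1 := by
    rw [mk_option]
    exact (add_le_add hR (one_le_aleph0.trans h0)).trans (add_eq_self h0).le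
  have hK : #K1 ≤ ℵ_ 1 := by rw [mk_K1]
  have hNat : #ℕ ≤ ℵ_ 1 := by rw [mk_nat]; exact h1
  have hNm : #(Len × (K1 → K1 → ℕ → Option (Rep Len))) ≤ #Len := by
    rw [mk_prod, lift_id, lift_id, mk_Len]
    refine (mul_le_mul' le_rfl ?_).trans (mul_eq_self h0).le
    exact mk_arrow_le h1 hK (mk_arrow_le h1 hK (mk_arrow_le h1 hNat hO))
  obtain ⟨F⟩ := hNm
  have hne : Nonempty Len := by
    rw [← mk_ne_zero_iff, mk_Len]
    exact (aleph0_pos.trans_le h0).ne'
  let f := Function.invFun F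
  have hf : ∀ N, f (F N) = N := Function.leftInverse_invFun F.injective
  refine ⟨fun j α ξ => {r | ∃ n, (f j).2 α ξ n = some r}, fun N hN b => ?_⟩
  choose h hh using fun α ξ => exists_enum (hN α ξ)
  have hbig : ∃ x, b < F (x, h) := by
    by_contra hcon
    push Not at hcon
    have h2 : #Len ≤ #(Set.Iic b) := by
      refine mk_le_of_injective (f := fun x => (⟨F (x, h), hcon x⟩ : Set.Iic b)) ?_
      intro x y hxy
      have h3 : F (x, h) = F (y, h) := congrArg Subtype.val hxy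
      exact (Prod.mk.inj (F.injective h3)).1
    exact absurd h2 (not_le.2 (len_Iic b))
  obtain ⟨x, hx⟩ := hbig
  refine ⟨F (x, h), hx, ?_⟩
  funext α ξ
  ext r
  rw [hh α ξ r]
  simp only [hf, Set.mem_ofPred_eq]

variable {J : Type} {g : J → K1 → K1 → Set (Rep J)} [LinearOrder J] [WellFoundedLT J]

/-- the pigeonhole principle for conditions -/
theorem exists_compat_same {j0 : J} (hj0 : ∀ i, j0 ≤ i) {X Z : Type} (h : #Z * ℵ₀ < #X)
    (f : X → Cd g) (z : X → Z) :
    ∃ x x', x ≠ x' ∧ z x = z x' ∧ ∃ s, s ≤ f x ∧ s ≤ f x' := by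
  have h1 : ∃ c, ¬ Countable {x // z x = c} := by
    by_contra hcon
    push Not at hcon
    have h2 : #X = Cardinal.sum fun c => #{x // z x = c} := by
      rw [← mk_sigma]
      exact (Equiv.sigmaFiberEquiv z).symm.cardinal_eq
    have h3 : #X ≤ #Z * ℵ₀ := by
      rw [h2]
      refine (Cardinal.sum_le_sum _ (fun _ => ℵ₀) fun c => ?_).trans ?_
      · have := hcon c
        exact mk_le_aleph0
      · rw [Cardinal.sum_const']
    exact absurd h3 (not_le.2 h)
  obtain ⟨c, hc⟩ := h1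
  obtain ⟨y, y', hne, hcomp⟩ := cond_ccc hj0 (fun x : {x // z x = c} => f x.1) hc
  exact ⟨y.1, y'.1, fun h => hne (Subtype.ext h), y.2.trans y'.2.symm, hcomp⟩

theorem not_onto {j0 : J} (hj0 : ∀ i, j0 ≤ i) {X Z : Type} (hμν : #Z < #X) (hν : ℵ₀ < #X)
    (p : Cd g) : p ∈ fnot (fex fun R : Z → X → Set (Cd g) =>
      fand (IsFun R) (fall fun y => fex fun x => meets (R x y))) := by
  intro q _ hq
  obtain ⟨r, _, R, hR1, hR2⟩ := mem_fex.1 hq q le_rfl
  choose f hf x hx using fun y => mem_fex.1 (hR2 y) r le_rfl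
  obtain ⟨y, y', hne, hz, s, hs1, hs2⟩ :=
    exists_compat_same hj0 (X := X) (Z := Z) (mul_lt_of_lt hν.le hμν hν) f x
  apply hne
  refine IsFun.unique (down_IsFun R r hR1 s (hs1.trans (hf y))) (down_meets _ _ (hx y) s hs1) ?_
  rw [hz]
  exact down_meets _ _ (hx y') s hs2

end Pool.Agent.W876.Prox.Book
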