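import Mathlib
import Pool.Agent.W876.Prox.Main

/-!
# The failure of the hitting clause for infinite `θ`
-/

namespace Pool.Agent.W876.Prox.Fail

open Cardinal Pool.Agent.Helper126.Lam.Forc Pool.Agent.Helper761.Om Pool.Agent.W876.Prox.Poset
  Pool.Agent.W876.Prox.Omega Pool.Agent.W876.Prox.Hit Pool.Agent.W876.Prox.Defs
  Pool.Agent.W876.Prox.Main

set_option linter.unusedSectionVars false

variable {J : Type} {g : J → K1 → K1 → Set (Rep J)} [LinearOrder J] [WellFoundedLT J]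

/-- without limit points the named club sets are locally finite -/
theorem local_finite {Rel : K1 → K1 → (K1 → Set (Cd g)) → (K1 → Set (Cd g)) → Set (Cd g)}
    {Ω : Set K1} (hΩ : ∀ α, Order.IsSuccLimit α → α ∈ Ω) {C : K1 → K1 → Set (Cd g)} {r : Cd g}
    (hr : r ∈ IsSeq Rel Ω C) {α : K1} (hα : Order.IsSuccLimit α) (η : K1) (hη : η < α) :
    ∀ s ≤ r, ∃ s' ≤ s, ∃ B : Finset K1, ∀ ξ < η, ξ ∉ B → ∀ u ≤ s', u ∉ meets (C α ξ) := by
  classical
  induction η using WellFoundedLT.induction with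
  | ind η IH =>
    intro s hs
    by_cases hmin : IsMin η
    · exact ⟨s, le_rfl, ∅, fun ξ hξ => absurd hξ (not_lt.2 (hmin.isBot ξ))⟩
    have hnl : s ∉ IsLimitPoint (C α) η := by
      intro hl
      by_cases hlim : Order.IsSuccLimit η
      · obtain ⟨t, _, ht⟩ := mem_fimp.1 ((hr α hα).2 η) s hs ⟨hη, hl⟩
        exact ht.2 (hΩ η hlim)
      · have h1 : ∃ ζ, ζ ⋖ η := by
          by_contra hcon
          push Not at hcon
          exact hlim ⟨hmin, hcon⟩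
        obtain ⟨ζ, hζ⟩ := h1
        obtain ⟨_, _, x, hx, _⟩ := mem_fex.1 (hl.2 ζ hζ.1) s le_rfl
        exact hζ.2 hx.1 hx.2
    have h2 : ∃ ζ < η, ∃ q ≤ s, ∀ t ≤ q, ∀ x, ζ < x → x < η → t ∉ meets (C α x) := by
      by_contra hcon
      push Not at hcon
      refine hnl ⟨hmin, fun ζ hζ => mem_fex.2 fun q hq => ?_⟩
      obtain ⟨t, ht, x, h3, h4, h5⟩ := hcon ζ hζ q hq
      exact ⟨t, ht, x, ⟨h3, h4⟩, h5⟩
    obtain ⟨ζ, hζ, q, hq, h3⟩ := h2
    obtain ⟨s', hs', B, hB⟩ := IH ζ hζ (hζ.trans hη) q (hq.trans hs)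
    refine ⟨s', hs'.trans hq, insert ζ B, fun ξ hξ hξB u hu => ?_⟩
    rw [Finset.mem_insert, not_or] at hξB
    rcases lt_trichotomy ξ ζ with h | h | h
    · exact hB ξ h hξB.2 u hu
    · exact absurd h hξB.1
    · exact h3 u (hu.trans hs') ξ h hξ

/-- a representative valid below `j`, as a condition -/
theorem exists_cd {j : J} {r : Rep J} (hr : r ∈ (Data g j).V) : ∃ r' : Cd g, r'.1 = r := by
  rw [mem_V] at hr
  refine ⟨⟨r, fun i => ?_⟩, rfl⟩
  by_cases hi : i < j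
  · exact hr.2 i hi
  · exact Vl_none fun τ => hr.1 i (not_lt.1 hi) τ

/-- the `m`-th generic set of the coordinate `j` -/
def Bn (g : J → K1 → K1 → Set (Rep J)) (j : J) (m : ℕ) (x : K1) : Set (Cd g) :=
  {p | p.1.f j (.bit m x) = some 1}

theorem down_Bn (j : J) (m : ℕ) (x : K1) : Down (Bn g j m x) :=
  fun _ hp _ hq => (hq j).1 _ _ hp

theorem cofinal_Bn (j : J) (m : ℕ) (p : Cd g) : p ∈ IsCofinalSet (Bn g j m) := by
  refine fun ζ => mem_fex.2 fun q _ => ?_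
  obtain ⟨b, hb⟩ := bounded_finite (lv '' {τ | q.1.f j τ ≠ none} ∪ {ζ})
    (((fin_at q.1 j).image lv).union (by simp))
  have hζ : ζ < b := hb ζ (Or.inr rfl)
  have hn : q.1.f j (.bit m b) = none := by
    by_contra hcon
    exact absurd (hb b (Or.inl ⟨_, hcon, rfl⟩)) (lt_irrefl _)
  obtain ⟨r, h1, h2, _⟩ := add_tag q j (.bit m b) hn 1 (by simp) (by
    intro m' x' h _ a ha
    obtain ⟨rfl, rfl⟩ : m = m' ∧ b = x' := by simpa using h
    exact (hb a (Or.inl ⟨_, by rw [Set.mem_ofPred_eq, ha]; simp, rfl⟩)).le)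
  exact ⟨r, h1, b, hζ, meets_of_mem h2⟩

theorem exists_index : ∃ nn : K1 → ℕ, ∀ m : ℕ, ∃ i : K1, idx i < Ordinal.omega0 ∧ nn i = m ∧
    ∀ α, Lim α → i < α := by
  classical
  have hω : ∀ m : ℕ, (m : Ordinal.{0}) < Ordinal.type (α := K1) (· < ·) := by
    intro m
    have h1 : Ordinal.type (α := K1) (· < ·) = (ℵ_ 1).ord := Ordinal.type_toType _
    rw [h1]
    refine (Ordinal.natCast_lt_omega0 m).trans ?_
    rw [← ord_aleph0]
    exact ord_lt_ord.2 aleph0_lt_aleph_one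
  let en : ℕ → K1 := fun m => Ordinal.enum (α := K1) (· < ·) ⟨m, hω m⟩
  have hen : ∀ m, idx (en m) = m := fun m => Ordinal.typein_enum _ (hω m)
  refine ⟨fun i => if h : ∃ m : ℕ, idx i = m then h.choose else 0, fun m => ⟨en m, ?_, ?_, ?_⟩⟩
  · rw [hen]; exact Ordinal.natCast_lt_omega0 m
  · have h : ∃ m' : ℕ, idx (en m) = m' := ⟨m, hen m⟩
    show (if h : ∃ m' : ℕ, idx (en m) = m' then h.choose else 0) = m
    rw [dif_pos h]
    have h1 : idx (en m) = (h.choose : Ordinal) := h.choose_spec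
    exact (Nat.cast_injective ((hen m).symm.trans h1)).symm
  · intro α hα
    induction m with
    | zero =>
      obtain ⟨a, ha⟩ := hα.1
      refine lt_of_le_of_lt ?_ ha
      by_contra hcon
      have h1 := (Ordinal.typein_lt_typein (α := K1) (· < ·)).2 (not_le.1 hcon)
      have h2 : Ordinal.typein (α := K1) (· < ·) (en 0) = ((0 : ℕ) : Ordinal) := hen 0
      rw [h2, Nat.cast_zero] at h1
      exact absurd h1 (not_lt.2 zero_le)
    | succ m ih =>
      obtain ⟨b, hb1, hb2⟩ := hα.2 _ ih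
      refine lt_of_le_of_lt ?_ hb2
      by_contra hcon
      have h1 := (Ordinal.typein_lt_typein (α := K1) (· < ·)).2 (not_le.1 hcon)
      have h3 := (Ordinal.typein_lt_typein (α := K1) (· < ·)).2 hb1
      have h2 : Ordinal.typein (α := K1) (· < ·) (en (m + 1)) = ((m + 1 : ℕ) : Ordinal) :=
        hen (m + 1)
      have h4 : Ordinal.typein (α := K1) (· < ·) (en m) = ((m : ℕ) : Ordinal) := hen m
      rw [h2, Nat.cast_succ, Order.lt_add_one_iff] at h1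
      rw [h4] at h3
      exact absurd h3 (not_lt.2 h1)

theorem not_proxy {j0 : J} (hj0 : ∀ i, j0 ≤ i)
    (hcof : ∀ S : Set J, #S ≤ ℵ_ 1 → ∃ b, ∀ s ∈ S, s < b)
    (hg : ∀ N : K1 → K1 → Set (Rep J), (∀ α ξ, (N α ξ).Countable) → ∀ b, ∃ j, b < j ∧ g j = N)
    (Rel : K1 → K1 → (K1 → Set (Cd g)) → (K1 → Set (Cd g)) → Set (Cd g))
    {Ω : Set K1} (hΩ : ∀ α, Order.IsSuccLimit α → α ∈ Ω) {θ : Ordinal.{0}}
    (hθ : Ordinal.omega0 ≤ θ) (p : Cd g) : p ∈ fnot (Proxy Rel Ω θ) := by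
  classical
  intro q _ hq
  obtain ⟨r, _, C, hC, hH⟩ := mem_fex.1 hq q le_rfl
  choose A hA1 hA2 hA3 using fun (α x : K1) =>
    exists_antichain hj0 {a : Cd g | a ≤ r ∧ a ∈ meets (C α x)}
  have h01 : ℵ₀ ≤ ℵ_ 1 := aleph0_le_aleph 1
  obtain ⟨b, hb⟩ := exists_below h01 hcof (A := ⋃ x : K1 × K1, A x.1 x.2) (by
      refine (mk_iUnion_le_sum_mk).trans ?_
      refine (Cardinal.sum_le_sum _ (fun _ => ℵ₀) fun x => ?_).trans ?_
      · exact Cardinal.le_aleph0_iff_set_countable.2 (hA2 _ _)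
      · rw [Cardinal.sum_const']
        refine (mul_le_mul' ?_ h01).trans (mul_eq_self h01).le
        simp only [mk_prod, lift_id, mk_K1]
        exact (mul_eq_self h01).le)
  let N : K1 → K1 → Set (Rep J) := fun α x =>
    if Order.IsSuccLimit α then Subtype.val '' A α x else ∅
  have hNc : ∀ α x, (N α x).Countable := by
    intro α x
    by_cases h : Order.IsSuccLimit α
    · simp only [N, if_pos h]; exact (hA2 α x).image _
    · simp only [N, if_neg h]; exact Set.countable_empty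
  have hN : ∀ {α x e}, e ∈ N α x → Order.IsSuccLimit α ∧ ∃ a ∈ A α x, a.1 = e := by
    intro α x e he
    by_cases h : Order.IsSuccLimit α
    · simp only [N, if_pos h] at he; exact ⟨h, he⟩
    · simp only [N, if_neg h] at he; exact absurd he (Set.notMem_empty _)
  obtain ⟨j, hbj, hj⟩ := hg N hNc b
  have hbelow : ∀ α x, ∀ a ∈ A α x, Below a.1 j := fun α x a ha =>
    hb a (Set.mem_iUnion.2 ⟨(α, x), ha⟩) j hbj.le
  have hOK : OKn (g j) (Data g j) := by
    rw [hj]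
    intro α η hη rr hrr
    obtain ⟨r', rfl⟩ := exists_cd hrr
    by_cases hcomp : Order.IsSuccLimit α ∧ ∃ s, s ≤ r' ∧ s ≤ r
    · obtain ⟨hα, s, hs1, hs2⟩ := hcomp
      obtain ⟨s', hs', B, hB⟩ := local_finite hΩ hC hα η hη s hs2
      refine ⟨res s'.1 (Set.Iio j), res_mem_V s' j, ?_, B, fun ξ hξ hξB e he hc => ?_⟩
      · rw [le_D]
        intro i hi
        exact Le_res_left (isLowerSet_Iio j) ((hs'.trans hs1) i) hi
      · obtain ⟨_, a, ha, rfl⟩ := hN he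
        have hc' : CC g j s'.1 a.1 :=
          (CC_congr g fun i' h' => res_mem (T := Set.Iio j) h').1 hc
        obtain ⟨u, hu1, hu2⟩ := (CC_iff_compat (hbelow _ _ a ha)).1 hc'
        exact hB ξ hξ hξB u hu1 (down_meets _ _ (hA1 _ _ ha).2 u hu2)
    · refine ⟨r'.1, hrr, ?_, ∅, fun ξ _ _ e he hc => ?_⟩
      · rw [le_D]
        exact fun i _ => Le_of_eq g rfl
      · obtain ⟨hα, a, ha, rfl⟩ := hN he
        obtain ⟨u, hu1, hu2⟩ := (CC_iff_compat (hbelow _ _ a ha)).1 hc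
        have hu3 : u ≤ a := hu2
        exact hcomp ⟨hα, u, hu1, hu3.trans (hA1 _ _ ha).1⟩
  obtain ⟨nn, hnn⟩ := exists_index
  obtain ⟨r1, hr1, hst⟩ := mem_fimp.1 (hH fun i => Bn g j (nn i)) r le_rfl
    fun i _ => cofinal_Bn j (nn i) r
  obtain ⟨r2, hr2, hex⟩ := mem_fimp.1 (hst fun _ => Set.univ) r1 le_rfl
    ⟨fun ζ => mem_fex.2 fun t _ => by
        obtain ⟨b', hb'⟩ := bounded_finite {ζ} (Set.finite_singleton ζ)
        exact ⟨t, le_rfl, b', hb' ζ rfl, meets_of_mem trivial⟩,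
      fun η => mem_fimp.2 fun t _ _ => ⟨t, le_rfl, meets_of_mem trivial⟩⟩
  obtain ⟨r3, hr3, α, hα, _, hhit⟩ := mem_fex.1 hex r2 le_rfl
  have hα : Order.IsSuccLimit α := hα
  have hαL := lim_of hα
  have h3r : r3 ≤ r := hr3.trans (hr2.trans hr1)
  have hpr : ∃ r4 ≤ r3, ∃ m, r4.1.f j (.pr α) = some m := by
    by_cases hn : r3.1.f j (.pr α) = none
    · obtain ⟨r4, h1, h2, _⟩ := add_tag r3 j (.pr α) hn 0 (fun _ _ =>
        ⟨hOK, b, hbj⟩) (by simp)
      exact ⟨r4, h1, 0, h2⟩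
    · obtain ⟨m, hm⟩ := Option.ne_none_iff_exists'.1 hn
      exact ⟨r3, le_rfl, m, hm⟩
  obtain ⟨r4, hr4, m, hm⟩ := hpr
  obtain ⟨i, hi1, hi2, hi3⟩ := hnn m
  obtain ⟨ζ, hζ, hζ'⟩ := bounded_below hαL (lv '' {τ | r4.1.f j τ ≠ none})
    ((fin_at r4.1 j).image lv)
  obtain ⟨r5, hr5, x, hx, hx1, hx2⟩ :=
    mem_fex.1 (hhit i (hi3 α hαL) (hi1.trans_le hθ) ζ hζ) r4 hr4
  have hx : ζ < x ∧ x < α := hx
  have hx2' : r5 ∈ meets (Bn g j m x) := by
    have : r5 ∈ meets (Bn g j (nn i) x) := hx2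
    rwa [hi2] at this
  obtain ⟨r6, hr6, h6⟩ := exists_of_meets (down_Bn j m x) hx2'
  have h6' : r6.1.f j (.bit m x) = some 1 := h6
  have hn4 : r4.1.f j (.bit m x) = none := by
    by_contra hcon
    exact absurd (hζ' x ⟨_, hcon, rfl⟩ hx.2) (not_le.2 hx.1)
  have hcon := ((hr6.trans hr5) j).2 α m hm x hx.2 1 h6' one_ne_zero hn4
  have h7 : r6 ∈ meets (C α x) := down_meets _ _ hx1.1 r6 hr6
  obtain ⟨a, ha, s, hs1, hs2⟩ := hA3 α x r6 ⟨hr6.trans (hr5.trans (hr4.trans h3r)), h7⟩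
  refine hcon a.1 ?_ (CC_of_le hs2 (CC_of_Le (fun i => hs1 i) j))
  rw [hj]
  simp only [N, if_pos hα]
  exact ⟨a, ha, rfl⟩

end Pool.Agent.W876.Prox.Fail
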